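import Pool.Agent.helper99.ZR.Spec
import Pool.Agent.helper49.GA.FLP

/-! # zr: row FLP -/

set_option autoImplicit false

namespace Pool.Agent.ZR

open Finset
open Pool.Agent.helper32.Cant
open Pool.Agent.GA (nrm chi ch St sg flp Psi)

theorem FLP : Pool.Agent.ZR.FLP_stmt := by
  intro n X _ c i ρ hi p x
  show ((3 ^ n * (c.ctr x : ℤ) + (c.R x : ℤ) * E (flp i p.2) : ℤ) : ZMod (3 ^ (2 * n)))
      + (p.1 + ((2 * sg i p.2 * ρ * 3 ^ (n - 1 - i) : ℤ) : ZMod (3 ^ (2 * n)))) =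
      (((3 ^ n * (c.ctr x : ℤ) + (c.R x : ℤ) * E p.2 : ℤ) : ZMod (3 ^ (2 * n))) + p.1)
      + ((-(2 * sg i p.2 * ((c.R x : ℤ) - ρ) * 3 ^ (n - 1 - i)) : ℤ) : ZMod (3 ^ (2 * n)))
  rw [Pool.Agent.GA.FLP_E hi]
  push_cast
  ring

end Pool.Agent.ZR
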