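import Pool.Agent.helper99.ZR.Spec

/-! # zr: row ON1 -/

set_option autoImplicit false

open Finset
open Pool.Agent.helper32.Cant
open Pool.Agent.GA (nrm chi ch St sg flp Psi rc ph pot rpot far nc gf ncs gfs good mj om pick pat et kap mult)
open scoped ENNReal

namespace Pool.Agent.ZR



theorem ON1_norm (gCHI : Pool.Agent.GA.CHI_stmt) {n : ℕ} {X : Type} [Fintype X] (c : Fam n X) (κ : ℕ) (ξ : ZMod (3 ^ (2 * n))) (p : St n)
    (Y : Finset (X)) : ‖VM c κ ξ p Y‖ ≤ ∑ y ∈ Y, wm c κ p y := by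
  unfold VM
  refine (norm_sum_le _ _).trans (Finset.sum_le_sum fun y _ => ?_)
  have hpos : 0 < wm c κ p y :=
    mul_pos (c.pos y) ((gCHI (3 ^ (2 * n)) ((3 : ℝ) ^ (2 * n - κ)) (by positivity)).1 _).1
  rw [norm_mul, Complex.norm_real, Real.norm_of_nonneg hpos.le]
  have h1 : ‖ch ξ (um c p y)‖ = 1 := by
    unfold ch
    exact AddChar.norm_apply _ _
  rw [h1, mul_one]

theorem ON1 (gCHI : Pool.Agent.GA.CHI_stmt) (hSTP : Pool.Agent.ZR.STP_stmt) : Pool.Agent.ZR.ON1_stmt := by
  intro n X _ c κ B g sh x ζ η δ Q E₀ hκB hBn hsh hx hζ1 hζ2 hη hη1 hδ hQ hE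
  have hwpos : ∀ (p : St n) (y : X), 0 < wm c κ p y := fun p y =>
    mul_pos (c.pos y) ((gCHI (3 ^ (2 * n)) ((3 : ℝ) ^ (2 * n - κ)) (by positivity)).1 _).1
  have hQ1 : 1 ≤ Q := by
    have : 1 ≤ Real.exp (2 * 3 ^ κ / 3 ^ B) := Real.one_le_exp (by positivity)
    rw [hQ]; nlinarith
  have hE0 : 0 ≤ E₀ := by rw [hE]; positivity
  intro l
  induction l with
  | nil =>
    intro a r Y _ _ _
    simp only [List.length_nil, pow_zero, Nat.cast_zero, zero_mul, add_zero, one_mul]
    refine Finset.sum_le_sum fun p _ => ?_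
    have h1 := ON1_norm gCHI c κ (x : ZMod (3 ^ (2 * n))) p Y
    have h2 : 0 ≤ ∑ y ∈ Y, wm c κ p y := Finset.sum_nonneg fun y _ => (hwpos p y).le
    have h3 : pot n sh ζ η c.R (wm c κ p) [a] Y = ∑ y ∈ Y, wm c κ p y := by simp [pot]
    rw [h3]
    rcases h2.eq_or_lt with h0 | h0
    · rw [← h0]; simp
    · rw [div_le_iff₀ h0, ← sq]
      exact pow_le_pow_left₀ (norm_nonneg _) h1 2
  | cons b l ih =>
    intro a r Y hch hle hY
    have hab : a + g ≤ b := by
      rw [List.isChain_cons_cons] at hch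
      exact hch.1
    have hch' : List.IsChain (fun i j => i + g ≤ j) (b :: l) := by
      rw [List.isChain_cons_cons] at hch
      exact hch.2
    have haκ : a ≤ κ := hle a (by simp)
    have hbκ : b ≤ κ := hle b (by simp)
    have hstp := hSTP n X c κ B a b g sh x r l ζ η δ Y hκB hBn haκ hab (by omega) hsh hx hζ1 hζ2
      hη hη1 hδ hY
    rw [← hQ, ← hE] at hstp
    refine hstp.trans ?_
    set N : ℝ := ∑ p, ∑ y ∈ Y, wm c κ p y with hN
    have hN0 : 0 ≤ N := Finset.sum_nonneg fun p _ => Finset.sum_nonneg fun y _ => (hwpos p y).le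
    have hchild : ∑ r' ∈ range (3 ^ (n + 1)), ∑ p,
        ‖VM c κ (x : ZMod (3 ^ (2 * n))) p {y ∈ Y | rc n sh b (c.R y) = r'}‖ ^ 2
          / pot n sh ζ η c.R (wm c κ p) (b :: l) {y ∈ Y | rc n sh b (c.R y) = r'} ≤
        Q ^ l.length * (1 + l.length * E₀) * N := by
      calc _ ≤ ∑ r' ∈ range (3 ^ (n + 1)), Q ^ l.length * (1 + l.length * E₀) *
            ∑ p, ∑ y ∈ Y with rc n sh b (c.R y) = r', wm c κ p y := by
            refine Finset.sum_le_sum fun r' _ => ?_
            exact ih b r' _ hch' (fun i hi => hle i (by simp at hi ⊢; tauto)) (fun y hy => by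
              simpa using (Finset.mem_filter.1 hy).2)
        _ = Q ^ l.length * (1 + l.length * E₀) *
            ∑ p, ∑ r' ∈ range (3 ^ (n + 1)), ∑ y ∈ Y with rc n sh b (c.R y) = r', wm c κ p y := by
            rw [← Finset.mul_sum, Finset.sum_comm]
        _ ≤ _ := by
            refine mul_le_mul_of_nonneg_left (Finset.sum_le_sum fun p _ => ?_) (by positivity)
            rw [Finset.sum_fiberwise_of_maps_to]
            intro y _
            rw [Finset.mem_range]
            unfold rc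
            have h1 : c.R y + sh < 3 ^ (n + 1) := by
              have := c.hi y
              rw [pow_succ]; omega
            exact lt_of_le_of_lt (Nat.div_le_self _ _) h1
    have hQl : 1 ≤ Q ^ (l.length + 1) := one_le_pow₀ hQ1
    simp only [List.length_cons, Nat.cast_add, Nat.cast_one]
    calc _ ≤ Q * (Q ^ l.length * (1 + l.length * E₀) * N) + E₀ * N := by
          have := mul_le_mul_of_nonneg_left hchild (by linarith : (0 : ℝ) ≤ Q)
          linarith
      _ = Q ^ (l.length + 1) * (1 + l.length * E₀) * N + 1 * (E₀ * N) := by ring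
      _ ≤ Q ^ (l.length + 1) * (1 + l.length * E₀) * N + Q ^ (l.length + 1) * (E₀ * N) := by
          have : 0 ≤ E₀ * N := by positivity
          have := mul_le_mul_of_nonneg_right hQl this
          linarith
      _ = _ := by ring

end Pool.Agent.ZR
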