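import Pool.Agent.helper99.ZR.Spec

/-! # zr: row ONE -/

set_option autoImplicit false

open Finset
open Pool.Agent.helper32.Cant
open Pool.Agent.GA (nrm chi ch St sg flp Psi rc ph pot rpot far nc gf ncs gfs good mj om pick pat et kap mult)
open scoped ENNReal

namespace Pool.Agent.ZR



/-- Cauchy-Schwarz for a sum of complex numbers with weights -/
theorem ONE_cs (s : Finset ℕ) (v : ℕ → ℂ) (h : ℕ → ℝ) (hh : ∀ r ∈ s, 0 ≤ h r)
    (hv : ∀ r ∈ s, h r = 0 → v r = 0) :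
    ‖∑ r ∈ s, v r‖ ^ 2 ≤ (∑ r ∈ s, h r) * ∑ r ∈ s, ‖v r‖ ^ 2 / h r := by
  have h1 := Finset.sum_mul_sq_le_sq_mul_sq s (fun r => √(h r)) (fun r => ‖v r‖ / √(h r))
  have h3 : ∑ r ∈ s, √(h r) * (‖v r‖ / √(h r)) = ∑ r ∈ s, ‖v r‖ := by
    refine Finset.sum_congr rfl fun r hr => ?_
    rcases (hh r hr).eq_or_lt with h0 | h0
    · rw [hv r hr h0.symm]; simp
    · have := Real.sqrt_pos.2 h0
      field_simp
  have h4 : ∑ r ∈ s, √(h r) ^ 2 = ∑ r ∈ s, h r :=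
    Finset.sum_congr rfl fun i hi => Real.sq_sqrt (hh i hi)
  have h5 : ∑ r ∈ s, (‖v r‖ / √(h r)) ^ 2 = ∑ r ∈ s, ‖v r‖ ^ 2 / h r :=
    Finset.sum_congr rfl fun i hi => by rw [div_pow, Real.sq_sqrt (hh i hi)]
  rw [h3, h4, h5] at h1
  refine le_trans (pow_le_pow_left₀ (norm_nonneg _) (norm_sum_le _ _) 2) h1

theorem ONE_num {n : ℕ} (hn : 1 ≤ n) {ε3 ε η : ℝ} (hε30 : 0 ≤ ε3) (hε3 : ε3 ≤ 1 / n)
    (hη : 0 < η) (hε : 2 * (n : ℝ) ^ 2 * ε ^ 2 ≤ η) {l : ℕ} (hl : l ≤ n) :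
    ((1 + 1 / (n : ℝ)) * Real.exp ε3) ^ l * (1 + l * ((1 + 1 / (1 / (n : ℝ))) * Real.exp ε3 * ε ^ 2
      / (2 * η))) ≤ 18 := by
  have hnr : (1 : ℝ) ≤ n := by exact_mod_cast hn
  have hn0 : (0 : ℝ) < n := by linarith
  have he : Real.exp 1 < 2.7182818286 := Real.exp_one_lt_d9
  have he0 : 0 < Real.exp 1 := Real.exp_pos 1
  have hQ : ((1 + 1 / (n : ℝ)) * Real.exp ε3) ^ l ≤ Real.exp 1 * Real.exp 1 := by
    have h1 : 1 + 1 / (n : ℝ) ≤ Real.exp (1 / n) := by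
      have := Real.add_one_le_exp (1 / (n : ℝ)); linarith
    have h2 : Real.exp ε3 ≤ Real.exp (1 / n) := Real.exp_le_exp.2 hε3
    have h3 : (1 + 1 / (n : ℝ)) * Real.exp ε3 ≤ Real.exp (1 / n) * Real.exp (1 / n) := by
      apply mul_le_mul h1 h2 (Real.exp_pos _).le (Real.exp_pos _).le
    have h4 : 1 ≤ Real.exp (1 / (n : ℝ)) * Real.exp (1 / n) := by
      have : 1 ≤ Real.exp (1 / (n : ℝ)) := Real.one_le_exp (by positivity)
      nlinarith
    calc ((1 + 1 / (n : ℝ)) * Real.exp ε3) ^ l ≤ (Real.exp (1 / n) * Real.exp (1 / n)) ^ l :=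
          pow_le_pow_left₀ (by positivity) h3 l
      _ ≤ (Real.exp (1 / n) * Real.exp (1 / n)) ^ n := pow_le_pow_right₀ h4 hl
      _ = Real.exp 1 * Real.exp 1 := by
          rw [mul_pow, ← Real.exp_nat_mul]
          congr 2 <;> field_simp
  have hE : (l : ℝ) * ((1 + 1 / (1 / (n : ℝ))) * Real.exp ε3 * ε ^ 2 / (2 * η)) ≤
      Real.exp 1 / 2 := by
    have h1 : (l : ℝ) ≤ n := by exact_mod_cast hl
    have h2 : Real.exp ε3 ≤ Real.exp 1 := Real.exp_le_exp.2 (hε3.trans (by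
      rw [div_le_one hn0]; exact hnr))
    have h3 : ε ^ 2 / (2 * η) ≤ 1 / (4 * n ^ 2) := by
      rw [div_le_div_iff₀ (by positivity) (by positivity)]
      nlinarith
    have h5 : 1 + 1 / (1 / (n : ℝ)) ≤ 2 * n := by rw [one_div_one_div]; linarith
    calc (l : ℝ) * ((1 + 1 / (1 / (n : ℝ))) * Real.exp ε3 * ε ^ 2 / (2 * η))
        = l * ((1 + 1 / (1 / (n : ℝ))) * Real.exp ε3 * (ε ^ 2 / (2 * η))) := by ring
      _ ≤ n * ((2 * n) * Real.exp 1 * (1 / (4 * n ^ 2))) := by gcongr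
      _ = Real.exp 1 / 2 := by field_simp; ring
  have hE0 : 0 ≤ (l : ℝ) * ((1 + 1 / (1 / (n : ℝ))) * Real.exp ε3 * ε ^ 2 / (2 * η)) := by
    positivity
  calc _ ≤ (Real.exp 1 * Real.exp 1) * (1 + Real.exp 1 / 2) := by
        apply mul_le_mul hQ (by linarith) (by linarith) (by positivity)
    _ ≤ (2.7182818286 * 2.7182818286) * (1 + 2.7182818286 / 2) := by gcongr
    _ ≤ 18 := by norm_num

theorem ONE (gCHI : Pool.Agent.GA.CHI_stmt) (gPOT : Pool.Agent.GA.POT_stmt) (hON1 : Pool.Agent.ZR.ON1_stmt) : Pool.Agent.ZR.ONE_stmt := by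
  intro n m X _ c κ B g sh x ζ η L hn hκB hBn hsh hx hζ1 hζ2 hη hη1 hε3 hε hL hch hle hlen
  have hwpos : ∀ (p : St n) (z : X), 0 < wm c κ p z := fun p z =>
    mul_pos (c.pos z) ((gCHI (3 ^ (2 * n)) ((3 : ℝ) ^ (2 * n - κ)) (by positivity)).1 _).1
  have hnr : (1 : ℝ) ≤ m := by exact_mod_cast hn
  rcases isEmpty_or_nonempty X with hX | ⟨⟨z₀⟩⟩
  · have h1 : ∑ p, ‖VM c κ (x : ZMod (3 ^ (2 * n))) p univ‖ ^ 2 / rpot n sh ζ η c.R (wm c κ p) L = 0 := by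
      refine Finset.sum_eq_zero fun p _ => ?_
      simp [VM]
    have h2 : ∑ p, NM c κ p = 0 := by
      refine Finset.sum_eq_zero fun p _ => ?_
      simp [NM]
    rw [h1, h2, mul_zero]
  obtain ⟨a, l, rfl⟩ := List.exists_cons_of_ne_nil hL
  set ξ : ZMod (3 ^ (2 * n)) := (x : ZMod (3 ^ (2 * n))) with hξ
  set Yr : ℕ → Finset (X) := fun r => {z | rc n sh a (c.R z) = r} with hYr
  have hrange : ∀ z : X, rc n sh a (c.R z) ∈ range (3 ^ (n + 1)) := by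
    intro z
    rw [Finset.mem_range]
    unfold rc
    have h1 : c.R z + sh < 3 ^ (n + 1) := by
      have := c.hi z
      rw [pow_succ]; omega
    exact lt_of_le_of_lt (Nat.div_le_self _ _) h1
  set H : St n → ℕ → ℝ := fun p r => pot n sh ζ η c.R (wm c κ p) (a :: l) (Yr r) with hH
  have hHprop : ∀ p r, η * ∑ z ∈ Yr r, wm c κ p z ≤ H p r := fun p r =>
    (gPOT _ n sh ζ η c.R hη.le hη1 (a :: l) (Yr r) (wm c κ p) (fun z _ => (hwpos p z).le)).1
  have hH0 : ∀ p r, 0 ≤ H p r := fun p r => by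
    have h2 : 0 ≤ ∑ y ∈ Yr r, wm c κ p y := Finset.sum_nonneg fun y _ => (hwpos p y).le
    have : 0 ≤ η * ∑ y ∈ Yr r, wm c κ p y := by positivity
    exact this.trans (hHprop p r)
  have hHV : ∀ p r, H p r = 0 → VM c κ ξ p (Yr r) = 0 := by
    intro p r h0
    have h2 : Yr r = ∅ := by
      by_contra hne
      have h3 : 0 < ∑ y ∈ Yr r, wm c κ p y :=
        Finset.sum_pos (fun y _ => hwpos p y) (Finset.nonempty_iff_ne_empty.2 hne)
      have h4 : 0 < η * ∑ y ∈ Yr r, wm c κ p y := by positivity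
      have h5 := hHprop p r
      rw [h0] at h5
      linarith
    simp [VM, h2]
  have hsumV : ∀ p, ∑ r ∈ range (3 ^ (n + 1)), VM c κ ξ p (Yr r) = VM c κ ξ p univ := by
    intro p
    simp only [VM, hYr]
    rw [Finset.sum_fiberwise_of_maps_to (fun z _ => hrange z)]
  have hsumN : ∀ p, ∑ r ∈ range (3 ^ (n + 1)), ∑ z ∈ Yr r, wm c κ p z = NM c κ p := by
    intro p
    simp only [hYr]
    rw [Finset.sum_fiberwise_of_maps_to (fun z _ => hrange z)]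
    rfl
  have hrp : ∀ p, rpot n sh ζ η c.R (wm c κ p) (a :: l) = ∑ r ∈ range (3 ^ (n + 1)), H p r := by
    intro p; rfl
  have hrp0 : ∀ p, 0 < rpot n sh ζ η c.R (wm c κ p) (a :: l) := by
    intro p
    rw [hrp]
    have h1 : 0 < NM c κ p := Finset.sum_pos (fun z _ => hwpos p z) ⟨z₀, mem_univ _⟩
    have h2 : 0 < η * NM c κ p := by positivity
    refine lt_of_lt_of_le h2 ?_
    rw [← hsumN p, Finset.mul_sum]
    exact Finset.sum_le_sum fun r _ => hHprop p r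
  have hmain : ∑ p, ‖VM c κ ξ p univ‖ ^ 2 / rpot n sh ζ η c.R (wm c κ p) (a :: l) ≤
      ∑ r ∈ range (3 ^ (n + 1)), ∑ p, ‖VM c κ ξ p (Yr r)‖ ^ 2 / H p r := by
    rw [Finset.sum_comm]
    refine Finset.sum_le_sum fun p _ => ?_
    rw [div_le_iff₀ (hrp0 p), hrp p, ← hsumV p, mul_comm]
    exact ONE_cs _ _ _ (fun r _ => hH0 p r) (fun r _ h => hHV p r h)
  refine hmain.trans ?_
  set ε3 : ℝ := 2 * 3 ^ κ / 3 ^ B with hε3def
  set ε : ℝ := 3 * 3 ^ κ / 3 ^ B + 5 / 3 ^ g with hεdef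
  have hon := hON1 n X c κ B g sh x ζ η (1 / m) _ _ hκB hBn hsh hx hζ1 hζ2 hη hη1 (by positivity)
    rfl rfl l a
  have hnum := ONE_num hn (ε3 := ε3) (by positivity) hε3 hη hε (l := l.length) (by
    simp only [List.length_cons] at hlen
    omega)
  calc ∑ r ∈ range (3 ^ (n + 1)), ∑ p, ‖VM c κ ξ p (Yr r)‖ ^ 2 / H p r
      ≤ ∑ r ∈ range (3 ^ (n + 1)), 18 * ∑ p, ∑ z ∈ Yr r, wm c κ p z := by
        refine Finset.sum_le_sum fun r _ => ?_
        refine (hon r (Yr r) hch hle (fun y hy => by simpa [hYr] using hy)).trans ?_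
        refine mul_le_mul_of_nonneg_right hnum ?_
        exact Finset.sum_nonneg fun p _ => Finset.sum_nonneg fun y _ => (hwpos p y).le
    _ = 18 * ∑ p, NM c κ p := by
        rw [← Finset.mul_sum, Finset.sum_comm]
        congr 1
        exact Finset.sum_congr rfl fun p _ => hsumN p

end Pool.Agent.ZR
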