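import Pool.Agent.helper99.ZR.Spec

/-! # zr: row SMU -/

set_option autoImplicit false

open Finset
open Pool.Agent.helper32.Cant
open Pool.Agent.GA (nrm chi ch St sg flp Psi rc ph pot rpot far nc gf ncs gfs good mj om pick pat et kap mult)
open scoped ENNReal

namespace Pool.Agent.ZR



/-- `∑_(i < m) i² ≤ m³/3` -/
lemma SMU_sq (m : ℕ) : ∑ i ∈ range m, ((i : ℝ)) ^ 2 ≤ (m : ℝ) ^ 3 / 3 := by
  induction m with
  | zero => simp
  | succ m ih =>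
    rw [sum_range_succ]
    push_cast
    have : (0 : ℝ) ≤ m := by positivity
    nlinarith

/-- restricted sums over an initial segment -/
lemma SMU_res (N : ℕ) (p : ℕ → Prop) [DecidablePred p] (h : ℕ → ℝ) (s : Finset ℕ)
    (hh : ∀ i, 0 ≤ h i) (hs : ∀ i < N, p i → i ∈ s) :
    ∑ i ∈ range N, (if p i then h i else 0) ≤ ∑ i ∈ s, h i := by
  rw [← sum_filter]
  refine sum_le_sum_of_subset_of_nonneg ?_ fun i _ _ => hh i
  intro i hi
  rw [mem_filter, mem_range] at hi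
  exact hs i hi.1 hi.2

/-- `∑_(m < i < N) 1/i² ≤ 1/m` -/
lemma SMU_inv (m N : ℕ) (hm : 1 ≤ m) :
    ∑ i ∈ range N, (if m < i then ((i : ℝ) ^ 2)⁻¹ else 0) ≤ (m : ℝ)⁻¹ := by
  rcases Nat.le_total m N with h | h
  · have h1 := SMU_res N (fun i => m < i) (fun i => ((i : ℝ) ^ 2)⁻¹) (Ioc m N)
      (fun i => by positivity) (fun i hi hp => mem_Ioc.2 ⟨hp, hi.le⟩)
    refine h1.trans ((sum_Ioc_inv_sq_le_sub (by omega) h).trans ?_)
    have : (0 : ℝ) ≤ (N : ℝ)⁻¹ := by positivity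
    linarith
  · have h0 : ∑ i ∈ range N, (if m < i then ((i : ℝ) ^ 2)⁻¹ else 0) = 0 := by
      refine sum_eq_zero fun i hi => ?_
      rw [mem_range] at hi
      rw [if_neg (by omega)]
    rw [h0]
    positivity

theorem SMU (gMUL : Pool.Agent.GA.MUL_stmt) (gNRM : Pool.Agent.GA.NRM_stmt) : Pool.Agent.ZR.SMU_stmt := by
  intro n q κ k x₁ e F hn hκk hk he hx₁ hF hFb
  set L : ℕ := 3 ^ (2 * n - (k + 1)) with hL
  have hML : 3 ^ (2 * n) = 3 ^ (k + 1) * L := by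
    rw [hL, ← pow_add]
    congr 1
    omega
  have hMLr : ((3 ^ (2 * n) : ℕ) : ℝ) = 3 ^ (k + 1) * L := by exact_mod_cast hML
  have hLpos : (0 : ℝ) < L := by rw [hL]; positivity
  set Lr : ℝ := (L : ℝ) with hLr
  have hpi : Real.pi ^ 2 ≤ 9.87 := by
    have h1 := Real.pi_lt_d4
    have h2 := Real.pi_pos
    nlinarith
  have hpi0 : 0 ≤ Real.pi ^ 2 := by positivity
  -- the three bounds of the multiplier
  have hm1 : ∀ ξ : ZMod (3 ^ (2 * n)), mult L ξ ≤ 4 * Lr ^ 2 := fun ξ => (gMUL _ L ξ).1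
  have hm2 : ∀ ξ : ZMod (3 ^ (2 * n)), mult L ξ ≤ 4 * Real.pi ^ 2 * nrm ξ ^ 2 * Lr ^ 2
      / 9 ^ (k + 1) := by
    intro ξ
    refine ((gMUL _ L ξ).2.1).trans (le_of_eq ?_)
    rw [hMLr, show (9 : ℝ) ^ (k + 1) = (3 ^ (k + 1)) ^ 2 by rw [← pow_mul, mul_comm, pow_mul]; norm_num]
    field_simp
    ring
  have hm3 : ∀ ξ : ZMod (3 ^ (2 * n)), nrm ξ ^ 2 * mult L ξ ≤ 9 ^ (k + 1) * Lr ^ 2 := by
    intro ξ
    refine ((gMUL _ L ξ).2.2.1).trans (le_of_eq ?_)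
    rw [hMLr, show (9 : ℝ) ^ (k + 1) = (3 ^ (k + 1)) ^ 2 by rw [← pow_mul, mul_comm, pow_mul]; norm_num]
    ring
  have hm0 : ∀ ξ : ZMod (3 ^ (2 * n)), 0 ≤ mult L ξ := fun ξ => (gMUL _ L ξ).2.2.2
  set x₀ : ℕ := 3 * q * 3 ^ κ with hx₀
  have hx₀1 : 1 ≤ x₀ := by
    rw [hx₀]
    have : 1 ≤ 3 ^ κ := Nat.one_le_pow _ _ (by norm_num)
    nlinarith
  -- the majorants
  let ga : ℕ → ℝ := fun i => if i < x₀ then 4 * Real.pi ^ 2 * Lr ^ 2 / 9 ^ (k + 1) * (i : ℝ) ^ 2 else 0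
  let gb1 : ℕ → ℝ := fun i => if 1 ≤ i ∧ i ≤ 3 ^ k then
    144 * (q : ℝ) ^ 2 * 9 ^ κ * (4 * Real.pi ^ 2 * Lr ^ 2 / 9 ^ (k + 1)) else 0
  let gb2 : ℕ → ℝ := fun i => if 3 ^ k < i then ((i : ℝ) ^ 2)⁻¹ else 0
  let gee : ℕ → ℝ := fun i => if 1 ≤ i ∧ i ≤ x₁ then 72 * e * Lr ^ 2 else 0
  let gc : ℕ → ℝ := fun i => if x₁ < i then ((i : ℝ) ^ 2)⁻¹ else 0
  let g : ℕ → ℝ := fun i => ga i + gb1 i + 144 * (q : ℝ) ^ 2 * 9 ^ κ * (4 * Lr ^ 2) * gb2 i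
    + gee i + 9 ^ (k + 1) * Lr ^ 2 * gc i
  have hga0 : ∀ i, 0 ≤ ga i := by
    intro i; simp only [ga]; split_ifs
    · positivity
    · exact le_rfl
  have hgb10 : ∀ i, 0 ≤ gb1 i := by
    intro i; simp only [gb1]; split_ifs
    · positivity
    · exact le_rfl
  have hgb20 : ∀ i, 0 ≤ gb2 i := by
    intro i; simp only [gb2]; split_ifs
    · positivity
    · exact le_rfl
  have hgee0 : ∀ i, 0 ≤ gee i := by
    intro i; simp only [gee]; split_ifs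
    · positivity
    · exact le_rfl
  have hgc0 : ∀ i, 0 ≤ gc i := by
    intro i; simp only [gc]; split_ifs
    · positivity
    · exact le_rfl
  have hcb0 : 0 ≤ 144 * (q : ℝ) ^ 2 * 9 ^ κ * (4 * Lr ^ 2) := by positivity
  have hcc0 : 0 ≤ 9 ^ (k + 1) * Lr ^ 2 := by positivity
  have hg0 : ∀ i, 0 ≤ g i := by
    intro i
    simp only [g]
    have h1 := hga0 i
    have h2 := hgb10 i
    have h3 := mul_nonneg hcb0 (hgb20 i)
    have h4 := hgee0 i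
    have h5 := mul_nonneg hcc0 (hgc0 i)
    linarith
  -- pointwise
  have hpt : ∀ ξ : ZMod (3 ^ (2 * n)), mult L ξ * F ξ ≤ g ξ.valMinAbs.natAbs := by
    intro ξ
    set i : ℕ := ξ.valMinAbs.natAbs with hi
    have hnrm : nrm ξ = (i : ℝ) := by
      unfold nrm
      rw [hi, Nat.cast_natAbs, Int.cast_abs]
    have h1 := hga0 i
    have h2 := hgb10 i
    have h3 := mul_nonneg hcb0 (hgb20 i)
    have h4 := hgee0 i
    have h5 := mul_nonneg hcc0 (hgc0 i)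
    have hM0 := hm0 ξ
    have hFξ := hF ξ
    have hMF : mult L ξ * F ξ ≤ mult L ξ := by nlinarith
    simp only [g]
    rcases Nat.lt_or_ge i x₀ with hlt | hge
    · have : mult L ξ ≤ ga i := by
        simp only [ga]
        rw [if_pos hlt]
        refine (hm2 ξ).trans (le_of_eq ?_)
        rw [hnrm]
        ring
      linarith
    · rcases Nat.lt_or_ge x₁ i with hlt' | hge'
      · have hipos : (0 : ℝ) < i := by
          have : 0 < i := by omega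
          exact_mod_cast this
        have : mult L ξ ≤ 9 ^ (k + 1) * Lr ^ 2 * gc i := by
          simp only [gc]
          rw [if_pos hlt', ← div_eq_mul_inv, le_div_iff₀ (by positivity)]
          have := hm3 ξ
          rw [hnrm] at this
          linarith
        linarith
      · have hi1 : 1 ≤ i := le_trans hx₀1 hge
        have hipos : (0 : ℝ) < i := by
          have : 0 < i := by omega
          exact_mod_cast this
        have hge1 : 3 * (q : ℝ) * 3 ^ κ ≤ nrm ξ := by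
          rw [hnrm]
          rw [hx₀] at hge
          exact_mod_cast hge
        have hle1 : nrm ξ ≤ x₁ := by
          rw [hnrm]
          exact_mod_cast hge'
        have hFb' := hFb ξ hge1 hle1
        rw [hnrm] at hFb'
        have e1 : mult L ξ * F ξ ≤ mult L ξ * (18 * (8 * (q : ℝ) ^ 2 * 9 ^ κ / (i : ℝ) ^ 2 + e)) :=
          mul_le_mul_of_nonneg_left hFb' hM0
        have e2 : mult L ξ * (18 * (8 * (q : ℝ) ^ 2 * 9 ^ κ / (i : ℝ) ^ 2 + e))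
            = 144 * (q : ℝ) ^ 2 * 9 ^ κ * (mult L ξ / (i : ℝ) ^ 2) + 18 * e * mult L ξ := by
          field_simp
          ring
        have e3 : 18 * e * mult L ξ ≤ gee i := by
          simp only [gee]
          rw [if_pos ⟨hi1, hge'⟩]
          have := mul_le_mul_of_nonneg_left (hm1 ξ) (show 0 ≤ 18 * e by positivity)
          linarith
        have e4 : 144 * (q : ℝ) ^ 2 * 9 ^ κ * (mult L ξ / (i : ℝ) ^ 2)
            ≤ gb1 i + 144 * (q : ℝ) ^ 2 * 9 ^ κ * (4 * Lr ^ 2) * gb2 i := by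
          have hc : 0 ≤ 144 * (q : ℝ) ^ 2 * 9 ^ κ := by positivity
          rcases Nat.lt_or_ge (3 ^ k) i with hk1 | hk1
          · have hb : mult L ξ / (i : ℝ) ^ 2 ≤ 4 * Lr ^ 2 * gb2 i := by
              simp only [gb2]
              rw [if_pos hk1, ← div_eq_mul_inv]
              exact div_le_div_of_nonneg_right (hm1 ξ) (by positivity)
            have := mul_le_mul_of_nonneg_left hb hc
            linarith
          · have hb : mult L ξ / (i : ℝ) ^ 2 ≤ 4 * Real.pi ^ 2 * Lr ^ 2 / 9 ^ (k + 1) := by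
              rw [div_le_iff₀ (by positivity)]
              have := hm2 ξ
              rw [hnrm] at this
              refine this.trans (le_of_eq ?_)
              ring
            have h6 := mul_le_mul_of_nonneg_left hb hc
            have h7 : gb1 i = 144 * (q : ℝ) ^ 2 * 9 ^ κ *
                (4 * Real.pi ^ 2 * Lr ^ 2 / 9 ^ (k + 1)) := by
              simp only [gb1]
              rw [if_pos ⟨hi1, hk1⟩]
            rw [← h7] at h6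
            linarith
        linarith
  -- the sums
  have hsum : ∑ ξ : ZMod (3 ^ (2 * n)), mult L ξ * F ξ
      ≤ 2 * ∑ i ∈ range (3 ^ (2 * n) + 1), g i :=
    (sum_le_sum fun ξ _ => hpt ξ).trans (gNRM _ g hg0)
  set N : ℕ := 3 ^ (2 * n) + 1 with hN
  have hSg : ∑ i ∈ range N, g i = ∑ i ∈ range N, ga i + ∑ i ∈ range N, gb1 i
      + 144 * (q : ℝ) ^ 2 * 9 ^ κ * (4 * Lr ^ 2) * ∑ i ∈ range N, gb2 i
      + ∑ i ∈ range N, gee i + 9 ^ (k + 1) * Lr ^ 2 * ∑ i ∈ range N, gc i := by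
    simp only [g]
    rw [sum_add_distrib, sum_add_distrib, sum_add_distrib, sum_add_distrib, mul_sum, mul_sum]
  have hx₀r : (x₀ : ℝ) = 3 * q * 3 ^ κ := by rw [hx₀]; push_cast; ring
  have hSa : ∑ i ∈ range N, ga i ≤ 4 * Real.pi ^ 2 * Lr ^ 2 / 9 ^ (k + 1) * ((x₀ : ℝ) ^ 3 / 3) := by
    have h1 := SMU_res N (fun i => i < x₀)
      (fun i => 4 * Real.pi ^ 2 * Lr ^ 2 / 9 ^ (k + 1) * (i : ℝ) ^ 2) (range x₀)
      (fun i => by positivity) (fun i _ hp => mem_range.2 hp)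
    refine h1.trans ?_
    rw [← mul_sum]
    exact mul_le_mul_of_nonneg_left (SMU_sq x₀) (by positivity)
  have hSb1 : ∑ i ∈ range N, gb1 i ≤ 3 ^ k *
      (144 * (q : ℝ) ^ 2 * 9 ^ κ * (4 * Real.pi ^ 2 * Lr ^ 2 / 9 ^ (k + 1))) := by
    have h1 := SMU_res N (fun i => 1 ≤ i ∧ i ≤ 3 ^ k)
      (fun i => 144 * (q : ℝ) ^ 2 * 9 ^ κ * (4 * Real.pi ^ 2 * Lr ^ 2 / 9 ^ (k + 1)))
      (Icc 1 (3 ^ k)) (fun i => by positivity) (fun i _ hp => mem_Icc.2 hp)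
    refine h1.trans (le_of_eq ?_)
    rw [sum_const, Nat.card_Icc, nsmul_eq_mul]
    push_cast [Nat.add_sub_cancel]
    ring
  have hSb2 : ∑ i ∈ range N, gb2 i ≤ ((3 : ℝ) ^ k)⁻¹ := by
    have h1 := SMU_inv (3 ^ k) N (Nat.one_le_pow _ _ (by norm_num))
    push_cast at h1
    exact h1
  have hSe : ∑ i ∈ range N, gee i ≤ x₁ * (72 * e * Lr ^ 2) := by
    have h1 := SMU_res N (fun i => 1 ≤ i ∧ i ≤ x₁)
      (fun i => 72 * e * Lr ^ 2)
      (Icc 1 x₁) (fun i => by positivity) (fun i _ hp => mem_Icc.2 hp)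
    refine h1.trans (le_of_eq ?_)
    rw [sum_const, Nat.card_Icc, nsmul_eq_mul]
    push_cast [Nat.add_sub_cancel]
    ring
  have hSc : ∑ i ∈ range N, gc i ≤ (x₁ : ℝ)⁻¹ := SMU_inv x₁ N hx₁
  -- assembly
  have hk3 : (3 : ℝ) ^ k = 3 ^ κ * 3 ^ (k - κ) := by
    rw [← pow_add]; congr 1; omega
  have hk9 : (9 : ℝ) ^ k = 9 ^ κ * 9 ^ (k - κ) := by
    rw [← pow_add]; congr 1; omega
  have h93 : ∀ m : ℕ, (9 : ℝ) ^ m = 3 ^ m * 3 ^ m := by
    intro m; rw [← mul_pow]; norm_num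
  have hx₁r : (0 : ℝ) < x₁ := by exact_mod_cast hx₁
  have h3κ : (0 : ℝ) < 3 ^ κ := by positivity
  have h3d : (0 : ℝ) < 3 ^ (k - κ) := by positivity
  set P : ℝ := 3 ^ κ with hP
  set D : ℝ := 3 ^ (k - κ) with hD
  have h9κ : (9 : ℝ) ^ κ = P * P := h93 κ
  have h9d : (9 : ℝ) ^ (k - κ) = D * D := h93 _
  have h9k1 : (9 : ℝ) ^ (k + 1) = 9 * (P * P * (D * D)) := by
    rw [pow_succ, hk9, h9κ, h9d]; ring
  have hgoalcast : ((3 : ℝ) ^ (2 * n - (k + 1))) = Lr := by rw [hLr, hL]; push_cast; rfl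
  rw [hgoalcast]
  unfold kap
  rw [h9d, ← hD]
  have tA : 2 * (4 * Real.pi ^ 2 * Lr ^ 2 / 9 ^ (k + 1) * ((x₀ : ℝ) ^ 3 / 3))
      ≤ Lr ^ 2 * P * (81 * (q : ℝ) ^ 3 / (D * D)) := by
    rw [h9k1, hx₀r]
    have h1 : 2 * (4 * Real.pi ^ 2 * Lr ^ 2 / (9 * (P * P * (D * D))) * ((3 * (q : ℝ) * P) ^ 3 / 3))
        = Real.pi ^ 2 * (8 * (Lr ^ 2 * P * (q : ℝ) ^ 3 / (D * D))) := by
      field_simp
      ring
    rw [h1]
    have h2 : Lr ^ 2 * P * (81 * (q : ℝ) ^ 3 / (D * D)) = 81 * (Lr ^ 2 * P * (q : ℝ) ^ 3 / (D * D)) := by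
      ring
    rw [h2]
    have h3 : 0 ≤ Lr ^ 2 * P * (q : ℝ) ^ 3 / (D * D) := by positivity
    nlinarith
  have tB : 2 * (3 ^ k * (144 * (q : ℝ) ^ 2 * 9 ^ κ * (4 * Real.pi ^ 2 * Lr ^ 2 / 9 ^ (k + 1)))
      + 144 * (q : ℝ) ^ 2 * 9 ^ κ * (4 * Lr ^ 2) * ((3 : ℝ) ^ k)⁻¹)
      ≤ Lr ^ 2 * P * (2448 * (q : ℝ) ^ 2 / D) := by
    rw [h9k1, h9κ, hk3]
    have h1 : 2 * (P * D * (144 * (q : ℝ) ^ 2 * (P * P) * (4 * Real.pi ^ 2 * Lr ^ 2
          / (9 * (P * P * (D * D)))))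
        + 144 * (q : ℝ) ^ 2 * (P * P) * (4 * Lr ^ 2) * (P * D)⁻¹)
        = (Real.pi ^ 2 * 128 + 1152) * (Lr ^ 2 * P * (q : ℝ) ^ 2 / D) := by
      field_simp
      ring
    rw [h1]
    have h2 : Lr ^ 2 * P * (2448 * (q : ℝ) ^ 2 / D) = 2448 * (Lr ^ 2 * P * (q : ℝ) ^ 2 / D) := by
      ring
    rw [h2]
    have h3 : 0 ≤ Lr ^ 2 * P * (q : ℝ) ^ 2 / D := by positivity
    exact mul_le_mul_of_nonneg_right (by linarith) h3
  have tE : 2 * (x₁ * (72 * e * Lr ^ 2)) = Lr ^ 2 * P * (144 * e * (x₁ / P)) := by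
    field_simp
    ring
  have tC : 2 * (9 ^ (k + 1) * Lr ^ 2 * (x₁ : ℝ)⁻¹) = Lr ^ 2 * P * (18 * (D * D) / (x₁ / P)) := by
    rw [h9k1]
    field_simp
    ring
  have hcb := mul_le_mul_of_nonneg_left hSb2 hcb0
  have hcc := mul_le_mul_of_nonneg_left hSc hcc0
  calc ∑ ξ : ZMod (3 ^ (2 * n)), mult L ξ * F ξ ≤ 2 * ∑ i ∈ range N, g i := hsum
    _ ≤ 2 * (4 * Real.pi ^ 2 * Lr ^ 2 / 9 ^ (k + 1) * ((x₀ : ℝ) ^ 3 / 3))
        + 2 * (3 ^ k * (144 * (q : ℝ) ^ 2 * 9 ^ κ * (4 * Real.pi ^ 2 * Lr ^ 2 / 9 ^ (k + 1)))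
          + 144 * (q : ℝ) ^ 2 * 9 ^ κ * (4 * Lr ^ 2) * ((3 : ℝ) ^ k)⁻¹)
        + 2 * (x₁ * (72 * e * Lr ^ 2)) + 2 * (9 ^ (k + 1) * Lr ^ 2 * (x₁ : ℝ)⁻¹) := by
        rw [hSg]; linarith
    _ ≤ Lr ^ 2 * P * (81 * (q : ℝ) ^ 3 / (D * D)) + Lr ^ 2 * P * (2448 * (q : ℝ) ^ 2 / D)
        + Lr ^ 2 * P * (144 * e * (x₁ / P)) + Lr ^ 2 * P * (18 * (D * D) / (x₁ / P)) := by
        rw [tE, tC]; linarith
    _ = _ := by ring

end Pool.Agent.ZR
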