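import Pool.Agent.helper99.ZR.Spec

/-! # zr: row SP3 -/

set_option autoImplicit false

open Finset
open Pool.Agent.helper32.Cant
open Pool.Agent.GA (nrm chi ch St sg flp Psi rc ph pot rpot far nc gf ncs gfs good mj om pick pat et kap mult)
open scoped ENNReal

namespace Pool.Agent.ZR

theorem SP3_val {M : ℕ} [NeZero M] (s : ZMod M) (L : ℕ) (hL : L ≤ M) :
    (s - (L : ZMod M)).val = if L ≤ s.val then s.val - L else s.val + M - L := by
  have hs := ZMod.val_lt s
  split_ifs with h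
  · have e : s - (L : ZMod M) = ((s.val - L : ℕ) : ZMod M) := by
      rw [Nat.cast_sub h, ZMod.natCast_zmod_val]
    rw [e, ZMod.val_natCast, Nat.mod_eq_of_lt (by omega)]
  · have e : s - (L : ZMod M) = ((s.val + M - L : ℕ) : ZMod M) := by
      rw [Nat.cast_sub (by omega), Nat.cast_add, ZMod.natCast_zmod_val, ZMod.natCast_self, add_zero]
    rw [e, ZMod.val_natCast, Nat.mod_eq_of_lt (by omega)]

theorem SP3_split {M : ℕ} [NeZero M] (s : ZMod M) (L : ℕ) (h : 3 * L ≤ M) :
    ind (s.val < 3 * L) = ind (s.val < L) + ind ((s - (L : ZMod M)).val < L)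
      + ind ((s - (L : ZMod M) - (L : ZMod M)).val < L) := by
  have hs := ZMod.val_lt s
  have e : s - (L : ZMod M) - (L : ZMod M) = s - ((2 * L : ℕ) : ZMod M) := by
    push_cast
    ring
  rw [e, SP3_val s L (by omega), SP3_val s (2 * L) (by omega)]
  by_cases h1 : s.val < L
  · have a1 : s.val < 3 * L := by omega
    have a2 : ¬ (L ≤ s.val) := by omega
    have a3 : ¬ (2 * L ≤ s.val) := by omega
    have a4 : ¬ (s.val + M - L < L) := by omega
    have a5 : ¬ (s.val + M - 2 * L < L) := by omega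
    simp only [ind, a1, a2, a3, if_true, if_false, h1, a4, a5]
    norm_num
  · by_cases h2 : s.val < 2 * L
    · have a1 : s.val < 3 * L := by omega
      have a2 : L ≤ s.val := by omega
      have a3 : ¬ (2 * L ≤ s.val) := by omega
      have a4 : s.val - L < L := by omega
      have a5 : ¬ (s.val + M - 2 * L < L) := by omega
      simp only [ind, a1, a2, a3, if_true, if_false, h1, a4, a5]
      norm_num
    · have a2 : L ≤ s.val := by omega
      have a3 : 2 * L ≤ s.val := by omega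
      have a4 : ¬ (s.val - L < L) := by omega
      by_cases h3 : s.val < 3 * L
      · have a5 : s.val - 2 * L < L := by omega
        simp only [ind, a2, a3, if_true, if_false, h1, a4, a5, h3]
        norm_num
      · have a5 : ¬ (s.val - 2 * L < L) := by omega
        simp only [ind, a2, a3, if_true, if_false, h1, a4, a5, h3]
        norm_num

theorem SP3_FI {n : ℕ} {X : Type} [Fintype X] (c : Fam n X) (L : ℕ) (h : 3 * L ≤ 3 ^ (2 * n))
    (w : Word n) (t : ZMod (3 ^ (2 * n))) :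
    FI c (3 * L) w t = FI c L w t + FI c L w (t + ((L : ℕ) : ZMod (3 ^ (2 * n))))
      + FI c L w (t + ((L : ℕ) : ZMod (3 ^ (2 * n))) + ((L : ℕ) : ZMod (3 ^ (2 * n)))) := by
  unfold FI
  rw [← Finset.sum_add_distrib, ← Finset.sum_add_distrib]
  refine Finset.sum_congr rfl fun z _ => ?_
  rw [SP3_split _ L h, ← sub_sub, ← sub_sub, ← sub_sub]
  ring

theorem SP3 : SP3_stmt := by
  intro n X _ c k hk
  obtain ⟨L, hL⟩ : ∃ L : ℕ, L = 3 ^ (2 * n - (k + 1)) := ⟨_, rfl⟩
  have hLp : 0 < L := by rw [hL]; positivity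
  have hLr : (0 : ℝ) < L := by exact_mod_cast hLp
  have e3 : 3 ^ (2 * n - k) = 3 * L := by
    rw [hL, ← pow_succ']
    congr 1
    omega
  have e3r : (3 : ℝ) ^ (2 * n - k) = 3 * L := by exact_mod_cast e3
  have eLr : (3 : ℝ) ^ (2 * n - (k + 1)) = L := by rw [hL]; push_cast; rfl
  have h3 : 3 * L ≤ 3 ^ (2 * n) := by
    rw [← e3]
    exact Nat.pow_le_pow_right (by norm_num) (by omega)
  unfold TC
  rw [e3, e3r, eLr, ← hL, Finset.sum_div]
  refine Finset.sum_le_sum fun w _ => ?_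
  have h1 : ∀ t : ZMod (3 ^ (2 * n)), |FI c (3 * L) w t / (3 * L) - FI c L w t / L| ≤
      (2 * |FI c L w t - FI c L w (t + ((L : ℕ) : ZMod (3 ^ (2 * n))))|
        + |FI c L w (t + ((L : ℕ) : ZMod (3 ^ (2 * n))))
          - FI c L w (t + ((L : ℕ) : ZMod (3 ^ (2 * n))) + ((L : ℕ) : ZMod (3 ^ (2 * n))))|) / (3 * L) := by
    intro t
    rw [SP3_FI c L h3]
    have e : (FI c L w t + FI c L w (t + ((L : ℕ) : ZMod (3 ^ (2 * n))))
      + FI c L w (t + ((L : ℕ) : ZMod (3 ^ (2 * n))) + ((L : ℕ) : ZMod (3 ^ (2 * n))))) / (3 * (L : ℝ))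
        - FI c L w t / L =
        (-(2 * (FI c L w t - FI c L w (t + ((L : ℕ) : ZMod (3 ^ (2 * n)))))) -
        (FI c L w (t + ((L : ℕ) : ZMod (3 ^ (2 * n))))
          - FI c L w (t + ((L : ℕ) : ZMod (3 ^ (2 * n))) + ((L : ℕ) : ZMod (3 ^ (2 * n)))))) / (3 * L) := by
      field_simp
      ring
    rw [e, abs_div, abs_of_pos (show (0 : ℝ) < 3 * L by positivity)]
    refine div_le_div_of_nonneg_right ?_ (by positivity)
    refine (abs_sub _ _).trans ?_
    rw [abs_neg, abs_mul, abs_of_pos (show (0 : ℝ) < 2 by norm_num)]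
  refine (Finset.sum_le_sum fun t _ => h1 t).trans (le_of_eq ?_)
  rw [← Finset.sum_div, Finset.sum_add_distrib, ← Finset.mul_sum]
  have h2 : ∑ t : ZMod (3 ^ (2 * n)), |FI c L w (t + ((L : ℕ) : ZMod (3 ^ (2 * n))))
          - FI c L w (t + ((L : ℕ) : ZMod (3 ^ (2 * n))) + ((L : ℕ) : ZMod (3 ^ (2 * n))))| =
      ∑ t : ZMod (3 ^ (2 * n)), |FI c L w t - FI c L w (t + ((L : ℕ) : ZMod (3 ^ (2 * n))))| :=
    Equiv.sum_comp (Equiv.addRight ((L : ℕ) : ZMod (3 ^ (2 * n))))
      (fun t => |FI c L w t - FI c L w (t + ((L : ℕ) : ZMod (3 ^ (2 * n))))|)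
  rw [h2]
  field_simp
  ring

end Pool.Agent.ZR
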