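import Pool.Agent.helper99.ZR.Spec

/-! # zr: row ST1 -/

set_option autoImplicit false

open Finset
open Pool.Agent.helper32.Cant
open Pool.Agent.GA (nrm chi ch St sg flp Psi rc ph pot rpot far nc gf ncs gfs good mj om pick pat et kap mult)
open scoped ENNReal

namespace Pool.Agent.ZR



theorem ST1_exp {y : ℝ} (h0 : 0 ≤ y) (h1 : y ≤ 2 / 3) : Real.exp y - 1 ≤ 3 / 2 * y := by
  have h := Real.exp_bound' h0 (by linarith : y ≤ 1) (n := 3) (by norm_num)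
  simp only [Finset.sum_range_succ, Finset.sum_range_zero, Nat.factorial] at h
  norm_num at h
  have h2 : y ^ 2 ≤ 2 / 3 * y := by nlinarith
  have h3 : y ^ 3 ≤ 4 / 9 * y := by nlinarith [mul_nonneg h0 h0]
  nlinarith

/-- `|e^(iφ) - 1| ≤ |φ|` -/
theorem ST1_phase (φ : ℝ) : ‖Complex.exp (φ * Complex.I) - 1‖ ≤ |φ| := by
  have := Real.norm_exp_I_mul_ofReal_sub_one_le (x := φ)
  rw [mul_comm]
  simpa using this

theorem ST1_fib {n : ℕ} {X : Type} [Fintype X] (c : Fam n X) (κ b sh : ℕ) (ξ : ZMod (3 ^ (2 * n))) (p : St n)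
    (Y : Finset (X)) (e : ℕ → ℂ) (hsh : sh < 3 ^ n) :
    ∑ r' ∈ range (3 ^ (n + 1)), VM c κ ξ p {y ∈ Y | rc n sh b (c.R y) = r'} * e r' =
      ∑ y ∈ Y, (wm c κ p y : ℂ) * ch ξ (um c p y) * e (rc n sh b (c.R y)) := by
  rw [← Finset.sum_fiberwise_of_maps_to (s := Y) (t := range (3 ^ (n + 1)))
    (g := fun y => rc n sh b (c.R y))]
  · refine Finset.sum_congr rfl fun r' _ => ?_
    unfold VM
    rw [Finset.sum_mul]
    refine Finset.sum_congr rfl fun y hy => ?_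
    rw [(Finset.mem_filter.1 hy).2]
  · intro y _
    rw [Finset.mem_range]
    unfold rc
    have h1 : c.R y + sh < 3 ^ (n + 1) := by
      have := c.hi y
      rw [pow_succ]; omega
    exact lt_of_le_of_lt (Nat.div_le_self _ _) h1

/-- a configuration -/
def ST1_cfg (n : ℕ) : Cfg n where
  G := univ
  R := fun _ => 3 ^ n
  lo := fun _ => le_rfl
  hi := fun _ => by
    have : 0 < 3 ^ n := by positivity
    omega
  ne := ⟨(⟨0, by positivity⟩, fun _ => true), mem_univ _⟩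

theorem ST1 (gCHR : Pool.Agent.GA.CHR_stmt) (gCHI : Pool.Agent.GA.CHI_stmt) (gFLP : Pool.Agent.GA.FLP_stmt) (hFLP : Pool.Agent.ZR.FLP_stmt) : Pool.Agent.ZR.ST1_stmt := by
  intro n X _ c κ B a b g sh x r ζ Y p hκB hBn haκ hab hbn hsh hx hζ1 hζ2 hY
  set i := B - 1 - a with hi
  set ρ : ℤ := (r : ℤ) * 3 ^ (n - a) - sh with hρ
  have hin : i < n := by omega
  obtain ⟨-, hsg, -, -⟩ := gFLP n (ST1_cfg n) i ρ hin
  have hu := hFLP n X c i ρ hin
  set ℓ : ℝ := (3 : ℝ) ^ (2 * n - κ) with hℓ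
  have hℓ0 : 0 < ℓ := by positivity
  obtain ⟨hchi1, hchi2, -⟩ := gCHI (3 ^ (2 * n)) ℓ hℓ0
  obtain ⟨hch1, hch2, hch3, -⟩ := gCHR (3 ^ (2 * n))
  set d : X → ℤ := fun y => -(2 * sg i p.2 * ((c.R y : ℤ) - ρ) * 3 ^ (n - 1 - i)) with hd
  have hn1i : n - 1 - i = n - B + a := by omega
  -- the size of `R - ρ`
  have hD : ∀ y ∈ Y, 0 ≤ (c.R y : ℤ) - ρ ∧ (c.R y : ℤ) - ρ < 3 ^ (n - a) := by
    intro y hy
    have h1 := hY y hy
    unfold rc at h1
    have h3 : 0 < 3 ^ (n - a) := by positivity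
    have h2 := Nat.div_add_mod (c.R y + sh) (3 ^ (n - a))
    have h4 := Nat.mod_lt (c.R y + sh) h3
    rw [h1] at h2
    have h5 : ((c.R y : ℤ) + sh) = 3 ^ (n - a) * r + ((c.R y + sh) % 3 ^ (n - a) : ℕ) := by
      exact_mod_cast h2.symm
    have h6 : (((c.R y + sh) % 3 ^ (n - a) : ℕ) : ℤ) < 3 ^ (n - a) := by exact_mod_cast h4
    have h7 : 0 ≤ (((c.R y + sh) % 3 ^ (n - a) : ℕ) : ℤ) := by positivity
    have h8 : (c.R y : ℤ) - ρ = (((c.R y + sh) % 3 ^ (n - a) : ℕ) : ℤ) := by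
      rw [hρ]; linarith
    rw [h8]
    exact ⟨h7, h6⟩
  have hsg' : |((sg i p.2 : ℤ) : ℝ)| = 1 := by
    rcases hsg p with h | h <;> rw [h] <;> norm_num
  have hpB : (3 : ℝ) ^ (n - a) * 3 ^ (n - B + a) * 3 ^ B = 3 ^ (2 * n) := by
    rw [← pow_add, ← pow_add]; congr 1; omega
  have hpκ : ℓ * 3 ^ κ = 3 ^ (2 * n) := by
    rw [hℓ, ← pow_add]; congr 1; omega
  have h3B : (0 : ℝ) < 3 ^ B := by positivity
  have h3κ : (0 : ℝ) < 3 ^ κ := by positivity
  have hdabs : ∀ y ∈ Y, |(d y : ℝ)| / ℓ ≤ 2 * 3 ^ κ / 3 ^ B := by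
    intro y hy
    obtain ⟨hD1, hD2⟩ := hD y hy
    have h1 : |(d y : ℝ)| = 2 * (((c.R y : ℤ) - ρ : ℤ) : ℝ) * 3 ^ (n - B + a) := by
      simp only [hd, hn1i]
      push_cast
      rw [abs_neg, abs_mul, abs_mul, abs_mul, hsg']
      have h2 : (0 : ℝ) ≤ ((c.R y : ℝ) - (ρ : ℝ)) := by exact_mod_cast hD1
      rw [abs_of_nonneg h2, abs_of_nonneg (by positivity : (0 : ℝ) ≤ 3 ^ (n - B + a))]
      norm_num
    have h2 : (((c.R y : ℤ) - ρ : ℤ) : ℝ) ≤ 3 ^ (n - a) := by exact_mod_cast hD2.le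
    rw [h1, div_le_div_iff₀ hℓ0 h3B]
    calc 2 * (((c.R y : ℤ) - ρ : ℤ) : ℝ) * 3 ^ (n - B + a) * 3 ^ B
        ≤ 2 * 3 ^ (n - a) * 3 ^ (n - B + a) * 3 ^ B := by gcongr
      _ = 2 * (3 ^ (n - a) * 3 ^ (n - B + a) * 3 ^ B) := by ring
      _ = 2 * 3 ^ κ * ℓ := by rw [hpB, ← hpκ]; ring
  have hw : ∀ y ∈ Y, Real.exp (-(2 * 3 ^ κ / 3 ^ B)) * wm c κ p y ≤ wm c κ (Psi i ρ p) y ∧
      wm c κ (Psi i ρ p) y ≤ Real.exp (2 * 3 ^ κ / 3 ^ B) * wm c κ p y := by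
    intro y hy
    have h1 := hchi2 (um c p y) (d y)
    have h2 : wm c κ (Psi i ρ p) y = c.a y * chi ℓ (um c p y + (d y : ZMod (3 ^ (2 * n)))) := by
      unfold wm
      rw [hu p y]
    have h3 : wm c κ p y = c.a y * chi ℓ (um c p y) := rfl
    have h4 : 0 ≤ chi ℓ (um c p y) := (hchi1 _).1.le
    have h5 := (c.pos y).le
    rw [h2, h3, mul_left_comm, mul_left_comm (Real.exp (2 * 3 ^ κ / 3 ^ B))]
    refine ⟨mul_le_mul_of_nonneg_left (le_trans ?_ h1.1) h5, mul_le_mul_of_nonneg_left (h1.2.trans ?_) h5⟩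
    · exact mul_le_mul_of_nonneg_right (Real.exp_le_exp.2 (neg_le_neg (hdabs y hy))) h4
    · exact mul_le_mul_of_nonneg_right (Real.exp_le_exp.2 (hdabs y hy)) h4
  refine ⟨hw, ?_⟩
  have hwpos : ∀ (p : St n) (y : X), 0 < wm c κ p y := fun p y => mul_pos (c.pos y) (hchi1 _).1
  -- the error of the weights
  have hε3 : (2 : ℝ) * 3 ^ κ / 3 ^ B ≤ 2 / 3 := by
    rw [div_le_div_iff₀ h3B (by norm_num)]
    have : (3 : ℝ) ^ (κ + 1) ≤ 3 ^ B := pow_le_pow_right₀ (by norm_num) (by omega)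
    rw [pow_succ] at this
    linarith
  have hε30 : (0 : ℝ) ≤ 2 * 3 ^ κ / 3 ^ B := by positivity
  have hwdiff : ∀ y ∈ Y, |wm c κ (Psi i ρ p) y - wm c κ p y| ≤ 3 * 3 ^ κ / 3 ^ B * wm c κ p y := by
    intro y hy
    obtain ⟨h1, h2⟩ := hw y hy
    have h3 := ST1_exp hε30 hε3
    have h4 : 1 - 2 * 3 ^ κ / 3 ^ B ≤ Real.exp (-(2 * 3 ^ κ / 3 ^ B : ℝ)) := by
      have := Real.add_one_le_exp (-(2 * 3 ^ κ / 3 ^ B : ℝ)); linarith
    have h5 := hwpos p y
    have e1 : (3 : ℝ) * 3 ^ κ / 3 ^ B = 3 / 2 * (2 * 3 ^ κ / 3 ^ B) := by ring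
    rw [abs_le, e1]
    constructor
    · nlinarith
    · nlinarith
  -- the phases
  set s : ℝ := ((sg i p.2 : ℤ) : ℝ) with hs
  set Cst : ℂ := Complex.exp ((2 * Real.pi * (s * 2 * ζ * r) : ℝ) * Complex.I) with hCst
  have hCst1 : ‖Cst‖ = 1 := Complex.norm_exp_ofReal_mul_I _
  set e : ℕ → ℂ := fun r' => Complex.exp ((2 * Real.pi * (-s * 2 * ζ * r' / 3 ^ (b - a)) : ℝ)
    * Complex.I) with he
  have he1 : ∀ r', ‖e r'‖ = 1 := fun r' => Complex.norm_exp_ofReal_mul_I _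
  have hphase : ∀ y ∈ Y, ‖ch (x : ZMod (3 ^ (2 * n))) (d y : ZMod (3 ^ (2 * n)))
      - Cst * e (rc n sh b (c.R y))‖ ≤ 5 / 3 ^ g := by
    intro y hy
    set r' := rc n sh b (c.R y) with hr'
    set rem : ℕ := (c.R y + sh) % 3 ^ (n - b) with hrem
    have hremlt : rem < 3 ^ (n - b) := Nat.mod_lt _ (by positivity)
    have h1 : (c.R y : ℝ) + sh = r' * 3 ^ (n - b) + rem := by
      have h2 := Nat.div_add_mod (c.R y + sh) (3 ^ (n - b))
      have h3 : 3 ^ (n - b) * r' + rem = c.R y + sh := h2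
      have h4 : (3 : ℝ) ^ (n - b) * r' + rem = c.R y + sh := by exact_mod_cast h3
      linarith
    have hc := hch3 (x : ℤ) (d y)
    have e0 : (((x : ℤ) : ZMod (3 ^ (2 * n)))) = (x : ZMod (3 ^ (2 * n))) := by push_cast; rfl
    rw [e0] at hc
    have hxd : (x : ℝ) * (d y : ℝ) / 3 ^ (2 * n)
        = s * 2 * ζ * r + (-s * 2 * ζ * r' / 3 ^ (b - a)) + (-s * 2 * ζ * rem / 3 ^ (n - a)) := by
      have h5 : (d y : ℝ) = -(2 * s * ((c.R y : ℝ) + sh - r * 3 ^ (n - a)) * 3 ^ (n - B + a)) := by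
        simp only [hd, hn1i, hρ]
        push_cast
        ring
      have h6 : (3 : ℝ) ^ (n - a) = 3 ^ (n - b) * 3 ^ (b - a) := by
        rw [← pow_add]; congr 1; omega
      rw [h5, hx, h1, ← hpB, h6]
      field_simp
      ring
    have hexp : ch (x : ZMod (3 ^ (2 * n))) (d y : ZMod (3 ^ (2 * n)))
        = Cst * e r' * Complex.exp ((2 * Real.pi * (-s * 2 * ζ * rem / 3 ^ (n - a)) : ℝ)
          * Complex.I) := by
      rw [hc, hCst, he]
      simp only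
      rw [← Complex.exp_add, ← Complex.exp_add]
      congr 1
      have h7 : (2 * (Real.pi : ℂ) * Complex.I * (((x : ℤ) : ℂ) * ((d y : ℤ) : ℂ)
          / ((3 ^ (2 * n) : ℕ) : ℂ))) = ((2 * Real.pi * ((x : ℝ) * (d y : ℝ) / 3 ^ (2 * n)) : ℝ) : ℂ)
            * Complex.I := by
        push_cast; ring
      rw [h7, hxd]
      push_cast
      ring
    rw [hexp]
    have h8 : Cst * e r' * Complex.exp ((2 * Real.pi * (-s * 2 * ζ * rem / 3 ^ (n - a)) : ℝ)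
          * Complex.I) - Cst * e r' = Cst * e r' * (Complex.exp
          ((2 * Real.pi * (-s * 2 * ζ * rem / 3 ^ (n - a)) : ℝ) * Complex.I) - 1) := by ring
    rw [h8, norm_mul, norm_mul, hCst1, he1, one_mul, one_mul]
    refine (ST1_phase _).trans ?_
    rw [abs_mul, abs_mul, abs_div, abs_mul, abs_mul, abs_mul, abs_neg, hsg']
    rw [abs_of_nonneg (by positivity : (0 : ℝ) ≤ (rem : ℝ)), abs_of_pos Real.pi_pos,
      abs_of_nonneg (by linarith : (0 : ℝ) ≤ ζ),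
      abs_of_nonneg (by positivity : (0 : ℝ) ≤ 3 ^ (n - a)), abs_of_pos (by norm_num : (0 : ℝ) < 2)]
    have h9 : (rem : ℝ) / 3 ^ (n - a) ≤ 1 / 3 ^ g := by
      rw [div_le_div_iff₀ (by positivity) (by positivity), one_mul]
      have h10 : (rem : ℝ) ≤ 3 ^ (n - b) := by exact_mod_cast hremlt.le
      calc (rem : ℝ) * 3 ^ g ≤ 3 ^ (n - b) * 3 ^ g := by gcongr
        _ = 3 ^ (n - b + g) := by rw [pow_add]
        _ ≤ 3 ^ (n - a) := pow_le_pow_right₀ (by norm_num) (by omega)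
    have hpi : Real.pi < 3.15 := Real.pi_lt_d2
    calc 2 * Real.pi * (1 * 2 * ζ * rem / 3 ^ (n - a))
        = 4 * Real.pi * ζ * (rem / 3 ^ (n - a)) := by ring
      _ ≤ 4 * 3.15 * (3 / 8) * (1 / 3 ^ g) := by gcongr
      _ ≤ 5 / 3 ^ g := by
          rw [mul_one_div]
          gcongr
          norm_num
  refine ⟨e, ?_, ?_⟩
  · have hph : ∀ r' : ℕ, ph ζ (b - a) r' =
        Complex.exp ((2 * Real.pi * (2 * ζ * r' / 3 ^ (b - a)) : ℝ) * Complex.I) := by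
      intro r'
      unfold ph
      congr 1
      push_cast
      ring
    rcases hsg p with h | h
    · right
      intro r'
      rw [hph, ← Complex.exp_conj, map_mul, Complex.conj_I, Complex.conj_ofReal, he]
      simp only
      congr 1
      rw [hs, h]
      push_cast
      ring
    · left
      intro r'
      rw [hph, he]
      simp only
      congr 1
      rw [hs, h]
      push_cast
      ring
  · rw [ST1_fib c κ b sh _ p Y e hsh]
    set T : ℂ := ∑ y ∈ Y, (wm c κ p y : ℂ) * ch (x : ZMod (3 ^ (2 * n))) (um c p y)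
      * e (rc n sh b (c.R y)) with hT
    have hdiff : ‖VM c κ (x : ZMod (3 ^ (2 * n))) (Psi i ρ p) Y - Cst * T‖ ≤
        (3 * 3 ^ κ / 3 ^ B + 5 / 3 ^ g) * ∑ y ∈ Y, wm c κ p y := by
      unfold VM
      rw [hT, Finset.mul_sum, ← Finset.sum_sub_distrib, Finset.mul_sum]
      refine (norm_sum_le _ _).trans (Finset.sum_le_sum fun y hy => ?_)
      rw [hu p y, hch2]
      set W := ch (x : ZMod (3 ^ (2 * n))) (um c p y) with hW
      set P := ch (x : ZMod (3 ^ (2 * n))) (d y : ZMod (3 ^ (2 * n))) with hP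
      have e1 : ((wm c κ (Psi i ρ p) y : ℝ) : ℂ) * (W * P)
          - Cst * (((wm c κ p y : ℝ) : ℂ) * W * e (rc n sh b (c.R y)))
          = W * (((wm c κ (Psi i ρ p) y - wm c κ p y : ℝ) : ℂ) * P
            + ((wm c κ p y : ℝ) : ℂ) * (P - Cst * e (rc n sh b (c.R y)))) := by
        push_cast; ring
      show ‖((wm c κ (Psi i ρ p) y : ℝ) : ℂ) * (W * P)
          - Cst * (((wm c κ p y : ℝ) : ℂ) * W * e (rc n sh b (c.R y)))‖ ≤ _
      rw [e1, norm_mul, hch1, one_mul]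
      refine (norm_add_le _ _).trans ?_
      rw [norm_mul, norm_mul, hch1, mul_one, Complex.norm_real, Complex.norm_real,
        Real.norm_eq_abs, Real.norm_of_nonneg (hwpos p y).le, add_mul]
      refine add_le_add (hwdiff y hy) ?_
      rw [mul_comm]
      exact mul_le_mul_of_nonneg_right (hphase y hy) (hwpos p y).le
    have h1 : ‖VM c κ (x : ZMod (3 ^ (2 * n))) (Psi i ρ p) Y‖ ≤ ‖Cst * T‖
        + ‖VM c κ (x : ZMod (3 ^ (2 * n))) (Psi i ρ p) Y - Cst * T‖ := by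
      have := norm_add_le (Cst * T) (VM c κ (x : ZMod (3 ^ (2 * n))) (Psi i ρ p) Y - Cst * T)
      rwa [add_sub_cancel] at this
    rw [norm_mul, hCst1, one_mul] at h1
    linarith

end Pool.Agent.ZR
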