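import Pool.Agent.helper99.ZR.Spec

/-! # zr: row STP -/

set_option autoImplicit false

open Finset
open Pool.Agent.helper32.Cant
open Pool.Agent.GA (nrm chi ch St sg flp Psi rc ph pot rpot far nc gf ncs gfs good mj om pick pat et kap mult)
open scoped ENNReal

namespace Pool.Agent.ZR



theorem STP_real {α β v h h' N S δ E ε η : ℝ} (hE : 1 ≤ E) (hh : 0 < h) (hh' : h ≤ E * h')
    (hN : 0 < N) (hη : 0 < η) (hηN : η * N ≤ h) (hδ : 0 < δ) (hv0 : 0 ≤ v)
    (hv : v ≤ β + ε * N) (hS : α ^ 2 + β ^ 2 ≤ 2 * h * S) :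
    α ^ 2 / h + v ^ 2 / h' ≤ 2 * ((1 + δ) * E) * S + (1 + 1 / δ) * E * ε ^ 2 / η * N := by
  have hE0 : 0 < E := by linarith
  have hh'0 : 0 < h' := by
    have : 0 < E * h' := lt_of_lt_of_le hh hh'
    exact (pos_iff_pos_of_mul_pos this).1 hE0
  have h1 : v ^ 2 ≤ (1 + δ) * β ^ 2 + (1 + 1 / δ) * ε ^ 2 * N ^ 2 := by
    have h2 : v ^ 2 ≤ (β + ε * N) ^ 2 := by
      apply pow_le_pow_left₀ hv0 hv
    have h3 : (β + ε * N) ^ 2 ≤ (1 + δ) * β ^ 2 + (1 + 1 / δ) * ε ^ 2 * N ^ 2 := by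
      have h4 : 0 ≤ (δ * β - ε * N) ^ 2 / δ := by positivity
      have h5 : (1 + δ) * β ^ 2 + (1 + 1 / δ) * ε ^ 2 * N ^ 2 - (β + ε * N) ^ 2
          = (δ * β - ε * N) ^ 2 / δ := by
        field_simp; ring
      linarith
    linarith
  have h2 : v ^ 2 / h' ≤ E * (v ^ 2 / h) := by
    rw [← mul_div_assoc, div_le_div_iff₀ hh'0 hh]
    have : 0 ≤ v ^ 2 := by positivity
    nlinarith
  have h3 : N ^ 2 / h ≤ N / η := by
    rw [div_le_div_iff₀ hh hη]
    nlinarith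
  have h4 : v ^ 2 / h ≤ (1 + δ) * (β ^ 2 / h) + (1 + 1 / δ) * ε ^ 2 * (N / η) := by
    calc v ^ 2 / h ≤ ((1 + δ) * β ^ 2 + (1 + 1 / δ) * ε ^ 2 * N ^ 2) / h := by gcongr
      _ = (1 + δ) * (β ^ 2 / h) + (1 + 1 / δ) * ε ^ 2 * (N ^ 2 / h) := by ring
      _ ≤ _ := by gcongr
  have h5 : (α ^ 2 + β ^ 2) / h ≤ 2 * S := by
    rw [div_le_iff₀ hh]; linarith
  have h6 : α ^ 2 / h ≤ (1 + δ) * E * (α ^ 2 / h) := by
    have h7 : 0 ≤ α ^ 2 / h := by positivity
    have h8 : 1 ≤ (1 + δ) * E := by nlinarith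
    nlinarith
  calc α ^ 2 / h + v ^ 2 / h' ≤ (1 + δ) * E * (α ^ 2 / h)
        + E * ((1 + δ) * (β ^ 2 / h) + (1 + 1 / δ) * ε ^ 2 * (N / η)) := by
        have := mul_le_mul_of_nonneg_left h4 hE0.le
        linarith
    _ = (1 + δ) * E * ((α ^ 2 + β ^ 2) / h) + (1 + 1 / δ) * E * ε ^ 2 / η * N := by
        field_simp; ring
    _ ≤ (1 + δ) * E * (2 * S) + (1 + 1 / δ) * E * ε ^ 2 / η * N := by
        have : 0 ≤ (1 + δ) * E := by positivity
        have := mul_le_mul_of_nonneg_left h5 this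
        linarith
    _ = _ := by ring

/-- a configuration -/
def STP_cfg (n : ℕ) : Cfg n where
  G := univ
  R := fun _ => 3 ^ n
  lo := fun _ => le_rfl
  hi := fun _ => by
    have : 0 < 3 ^ n := by positivity
    omega
  ne := ⟨(⟨0, by positivity⟩, fun _ => true), mem_univ _⟩

theorem STP (gCHI : Pool.Agent.GA.CHI_stmt) (gFLP : Pool.Agent.GA.FLP_stmt) (gALG : Pool.Agent.GA.ALG_stmt) (gPOT : Pool.Agent.GA.POT_stmt) (hST1 : Pool.Agent.ZR.ST1_stmt) : Pool.Agent.ZR.STP_stmt := by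
  intro n X _ c κ B a b g sh x r l ζ η δ Y hκB hBn haκ hab hbn hsh hx hζ1 hζ2 hη hη1 hδ hY
  have hwpos : ∀ (p : St n) (y : X), 0 < wm c κ p y := fun p y =>
    mul_pos (c.pos y) ((gCHI (3 ^ (2 * n)) ((3 : ℝ) ^ (2 * n - κ)) (by positivity)).1 _).1
  set ξ : ZMod (3 ^ (2 * n)) := (x : ZMod (3 ^ (2 * n))) with hξ
  set Yc : ℕ → Finset (X) := fun r' => {y ∈ Y | rc n sh b (c.R y) = r'} with hYc
  set N : St n → ℝ := fun p => ∑ y ∈ Y, wm c κ p y with hNdef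
  set H : St n → ℝ := fun p => pot n sh ζ η c.R (wm c κ p) (a :: b :: l) Y with hHdef
  set Hc : St n → ℕ → ℝ := fun p r' => pot n sh ζ η c.R (wm c κ p) (b :: l) (Yc r') with hHcdef
  set V : St n → ℂ := fun p => VM c κ ξ p Y with hVdef
  set Vc : St n → ℕ → ℂ := fun p r' => VM c κ ξ p (Yc r') with hVcdef
  set S : St n → ℝ := fun p => ∑ r' ∈ range (3 ^ (n + 1)), ‖Vc p r'‖ ^ 2 / Hc p r' with hSdef
  set E : ℝ := Real.exp (2 * 3 ^ κ / 3 ^ B) with hEdef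
  set ε : ℝ := 3 * 3 ^ κ / 3 ^ B + 5 / 3 ^ g with hεdef
  have hE1 : 1 ≤ E := Real.one_le_exp (by positivity)
  have hε0 : 0 ≤ ε := by positivity
  set i := B - 1 - a with hi
  set ρ : ℤ := (r : ℤ) * 3 ^ (n - a) - sh with hρ
  have hin : i < n := by omega
  have hpotn : ∀ (p : St n) (L : List ℕ) (Z : Finset (X)),
      η * ∑ y ∈ Z, wm c κ p y ≤ pot n sh ζ η c.R (wm c κ p) L Z ∧
      pot n sh ζ η c.R (wm c κ p) L Z ≤ ∑ y ∈ Z, wm c κ p y := by
    intro p L Z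
    have := gPOT _ n sh ζ η c.R hη.le hη1 L Z (wm c κ p) (fun x _ => (hwpos p x).le)
    exact ⟨this.1, this.2.1⟩
  have hHc0 : ∀ p r', 0 ≤ Hc p r' := by
    intro p r'
    have h1 := (hpotn p (b :: l) (Yc r')).1
    have h2 : 0 ≤ ∑ y ∈ Yc r', wm c κ p y := Finset.sum_nonneg fun y _ => (hwpos p y).le
    have : 0 ≤ η * ∑ y ∈ Yc r', wm c κ p y := by positivity
    exact this.trans h1
  have hS0 : ∀ p, 0 ≤ S p := fun p =>
    Finset.sum_nonneg fun r' _ => div_nonneg (by positivity) (hHc0 p r')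
  have hN0 : ∀ p, 0 ≤ N p := fun p => Finset.sum_nonneg fun y _ => (hwpos p y).le
  -- the right-hand side in terms of `S`
  have hRHS : (∑ r' ∈ range (3 ^ (n + 1)), ∑ p, ‖VM c κ ξ p (Yc r')‖ ^ 2
      / pot n sh ζ η c.R (wm c κ p) (b :: l) (Yc r')) = ∑ p, S p := by
    rw [Finset.sum_comm]
  rw [hRHS]
  show ∑ p, ‖V p‖ ^ 2 / H p ≤ (1 + δ) * E * (∑ p, S p)
    + (1 + 1 / δ) * E * ε ^ 2 / (2 * η) * ∑ p, N p
  rcases Y.eq_empty_or_nonempty with hYe | hYne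
  · have hV0 : ∀ p, V p = 0 := by
      intro p; simp [hVdef, VM, hYe]
    have h1 : ∑ p, ‖V p‖ ^ 2 / H p = 0 := Finset.sum_eq_zero fun p _ => by simp [hV0 p]
    rw [h1]
    have h2 : 0 ≤ ∑ p, S p := Finset.sum_nonneg fun p _ => hS0 p
    have h3 : 0 ≤ ∑ p, N p := Finset.sum_nonneg fun p _ => hN0 p
    positivity
  have hNpos : ∀ p, 0 < N p := fun p => Finset.sum_pos (fun y _ => hwpos p y) hYne
  have hHpos : ∀ p, 0 < H p := fun p => lt_of_lt_of_le (by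
    have := hNpos p
    positivity) (hpotn p (a :: b :: l) Y).1
  -- the key inequality for one `p`
  have hkey : ∀ p, ‖V p‖ ^ 2 / H p + ‖V (Psi i ρ p)‖ ^ 2 / H (Psi i ρ p) ≤
      2 * ((1 + δ) * E) * S p + (1 + 1 / δ) * E * ε ^ 2 / η * N p := by
    intro p
    obtain ⟨hw, e, he, hVe⟩ := hST1 n X c κ B a b g sh x r ζ Y p hκB hBn haκ hab hbn hsh hx hζ1 hζ2 hY
    have he1 : ∀ r', ‖e r'‖ = 1 := by
      intro r'
      have h0 : ‖ph ζ (b - a) r'‖ = 1 := by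
        unfold ph
        rw [show (2 * (Real.pi : ℂ) * Complex.I * (2 * (ζ : ℂ) * (r' : ℂ) / 3 ^ (b - a)))
          = ((2 * Real.pi * (2 * ζ * r' / 3 ^ (b - a)) : ℝ) : ℂ) * Complex.I by
            push_cast; ring]
        exact Complex.norm_exp_ofReal_mul_I _
      rcases he with he | he
      · rw [he, h0]
      · rw [he, RCLike.norm_conj, h0]
    have hsum : ∑ r' ∈ range (3 ^ (n + 1)), Vc p r' = V p := by
      simp only [hVcdef, hVdef, VM, hYc]
      rw [Finset.sum_fiberwise_of_maps_to]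
      intro y _
      rw [Finset.mem_range]
      unfold rc
      have h1 : c.R y + sh < 3 ^ (n + 1) := by
        have := c.hi y
        rw [pow_succ]; omega
      exact lt_of_le_of_lt (Nat.div_le_self _ _) h1
    have hnorm : ‖∑ r' ∈ range (3 ^ (n + 1)), (Hc p r' : ℂ) * e r'‖
        = ‖∑ r' ∈ range (3 ^ (n + 1)), (Hc p r' : ℂ) * ph ζ (b - a) r'‖ := by
      rcases he with he | he
      · simp only [he]
      · rw [← RCLike.norm_conj (K := ℂ), map_sum]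
        congr 1
        refine Finset.sum_congr rfl fun r' _ => ?_
        rw [he, map_mul, Complex.conj_conj, Complex.conj_ofReal]
    have hHge : (∑ r' ∈ range (3 ^ (n + 1)), Hc p r'
        + ‖∑ r' ∈ range (3 ^ (n + 1)), (Hc p r' : ℂ) * e r'‖) ≤ 2 * H p := by
      rw [hnorm]
      have : (∑ r' ∈ range (3 ^ (n + 1)), Hc p r'
        + ‖∑ r' ∈ range (3 ^ (n + 1)), (Hc p r' : ℂ) * ph ζ (b - a) r'‖) / 2 ≤ H p := by
        simp only [hHdef, hHcdef, hYc]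
        conv_rhs => rw [pot]
        exact le_max_left _ _
      linarith
    have halg := gALG (range (3 ^ (n + 1))) (Vc p) e (Hc p) (fun r' _ => hHc0 p r')
      (fun r' _ h0 => by
        have h1 := (hpotn p (b :: l) (Yc r')).1
        have h2 : Yc r' = ∅ := by
          by_contra hne
          have h3 : 0 < ∑ y ∈ Yc r', wm c κ p y :=
            Finset.sum_pos (fun y _ => hwpos p y) (Finset.nonempty_iff_ne_empty.2 hne)
          have h4 : 0 < η * ∑ y ∈ Yc r', wm c κ p y := by positivity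
          have h5 : Hc p r' = pot n sh ζ η c.R (wm c κ p) (b :: l) (Yc r') := rfl
          rw [← h5, h0] at h1
          linarith
        show VM c κ ξ p (Yc r') = 0
        simp [VM, h2]) (fun r' _ => he1 r')
    rw [hsum] at halg
    have hSle : ‖V p‖ ^ 2 + ‖∑ r' ∈ range (3 ^ (n + 1)), Vc p r' * e r'‖ ^ 2 ≤ 2 * H p * S p :=
      halg.trans (mul_le_mul_of_nonneg_right hHge (hS0 p))
    have hHE : H p ≤ E * H (Psi i ρ p) := by
      have h1 := gPOT _ n sh ζ η c.R hη.le hη1 (a :: b :: l) Y (fun y => E⁻¹ * wm c κ p y)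
        (fun y _ => mul_nonneg (by positivity) (hwpos p y).le)
      have h2 := h1.2.2.1 (wm c κ (Psi i ρ p)) (fun y hy => by
        have := (hw y hy).1
        rwa [Real.exp_neg] at this)
      have h3 := (gPOT _ n sh ζ η c.R hη.le hη1 (a :: b :: l) Y (wm c κ p)
        (fun y _ => (hwpos p y).le)).2.2.2 E⁻¹ (by positivity)
      rw [h3] at h2
      have hE0 : 0 < E := by linarith
      calc H p = E * (E⁻¹ * H p) := by field_simp
        _ ≤ E * H (Psi i ρ p) := mul_le_mul_of_nonneg_left h2 hE0.le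
    exact STP_real hE1 (hHpos p) hHE (hNpos p) hη (hpotn p (a :: b :: l) Y).1 hδ (norm_nonneg _)
      hVe hSle
  have hflp := (gFLP n (STP_cfg n) i ρ hin).2.2.2 (fun p => ‖V p‖ ^ 2 / H p)
  have htot : 2 * ∑ p, ‖V p‖ ^ 2 / H p ≤
      2 * ((1 + δ) * E) * ∑ p, S p + (1 + 1 / δ) * E * ε ^ 2 / η * ∑ p, N p := by
    calc 2 * ∑ p, ‖V p‖ ^ 2 / H p
        = ∑ p, (‖V p‖ ^ 2 / H p + ‖V (Psi i ρ p)‖ ^ 2 / H (Psi i ρ p)) := by
          rw [Finset.sum_add_distrib, hflp]; ring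
      _ ≤ ∑ p, (2 * ((1 + δ) * E) * S p + (1 + 1 / δ) * E * ε ^ 2 / η * N p) :=
          Finset.sum_le_sum fun p _ => hkey p
      _ = _ := by rw [Finset.sum_add_distrib, ← Finset.mul_sum, ← Finset.mul_sum]
  have e1 : (1 + 1 / δ) * E * ε ^ 2 / (2 * η) * ∑ p, N p
      = ((1 + 1 / δ) * E * ε ^ 2 / η * ∑ p, N p) / 2 := by
    field_simp
  rw [e1]
  linarith

end Pool.Agent.ZR
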