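import Pool.Agent.helper99.ZR.Spec

/-! # zr: row TW1 -/

set_option autoImplicit false

open Finset
open Pool.Agent.helper32.Cant
open Pool.Agent.GA (nrm chi ch St sg flp Psi rc ph pot rpot far nc gf ncs gfs good mj om pick pat et kap mult)
open scoped ENNReal

namespace Pool.Agent.ZR



theorem TW1_ind_le {q : Prop} {b : ℝ} (hb : 0 ≤ b) (h : q → 1 ≤ b) : ind q ≤ b := by
  unfold ind
  split_ifs with hq
  · exact h hq
  · exact hb

theorem TW1_ind_le_one (q : Prop) : ind q ≤ 1 := by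
  unfold ind
  split_ifs <;> norm_num

theorem TW1 (gCHI : Pool.Agent.GA.CHI_stmt) (gCMB : Pool.Agent.GA.CMB_stmt) (gBAL : Pool.Agent.GA.BAL_stmt) (gPT1 : Pool.Agent.GA.PT1_stmt) : Pool.Agent.ZR.TW1_stmt := by
  intro n X _ _ c κ g T sh ζ η U p o Z hκn hg hT hsh hζ1 hζ2 hη0 hη1
  obtain ⟨hne, hchain, hle, -, -, -⟩ := gPT1 g κ T o (by omega) hT
  obtain ⟨a, l, hal⟩ := List.exists_cons_of_ne_nil hne
  rw [hal] at hchain hle ⊢
  have hchain4 : List.IsChain (fun i j => i + 4 ≤ j) (a :: l) :=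
    hchain.imp (fun i j h => by omega)
  have hlen : ∀ i ∈ a :: l, i ≤ n := fun i hi => (hle i hi).trans hκn
  have hw : ∀ x, 0 < wm c κ p x := fun x =>
    mul_pos (c.pos x) ((gCHI (3 ^ (2 * n)) ((3 : ℝ) ^ (2 * n - κ)) (by positivity)).1 (um c p x)).1
  have hR : ∀ x, c.R x + sh < 3 ^ (n + 1) := by
    intro x
    have h1 := c.hi x
    rw [pow_succ]
    omega
  set w := wm c κ p with hwdef
  set S : X → ℝ := fun x => (((a :: l).dropLast.map
        (fun i => ind (good n sh i (c.R x)) * om n c.R w i x)).sum) with hS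
  set Q : ℝ := Real.exp (-(U / 60000)) + η + Real.exp (-(2 * U)) with hQ
  set f : X → ℝ := fun x => w x * Q + w x * (if x ∈ Z then 1 else Real.exp (4 * U - S x))
    with hf
  have hr : ∀ r : ℕ, pot n sh ζ η c.R w (a :: l) {x | rc n sh a (c.R x) = r} ≤
      ∑ x ∈ univ.filter (fun x => rc n sh a (c.R x) = r), f x := by
    intro r
    have h1 := gCMB X n sh ζ η c.R w hζ1 hζ2 hη0.le hη1 hw hR l a r
      {x | rc n sh a (c.R x) = r} U hchain4 hlen (fun x hx => (mem_filter.1 hx).2)
    refine h1.trans ?_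
    rw [sum_mul, ← sum_add_distrib]
    refine sum_le_sum fun x hx => ?_
    have hxr : rc n sh a (c.R x) = r := (mem_filter.1 hx).2
    have h2 := gBAL X n sh c.R w hw l a x hchain4 hlen
    rw [hxr] at h2
    refine add_le_add le_rfl (mul_le_mul_of_nonneg_left ?_ (hw x).le)
    by_cases hxZ : x ∈ Z
    · rw [if_pos hxZ]
      exact TW1_ind_le_one _
    · rw [if_neg hxZ]
      refine TW1_ind_le (Real.exp_pos _).le fun hlt => ?_
      rw [← Real.exp_zero]
      refine Real.exp_le_exp.2 ?_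
      have : S x ≤ 4 * U := h2.trans hlt.le
      linarith
  have hsum : rpot n sh ζ η c.R w (a :: l) ≤ ∑ x, f x := by
    unfold rpot
    refine (sum_le_sum fun r _ => hr r).trans ?_
    refine le_of_eq ?_
    refine sum_fiberwise_of_maps_to (s := univ) (t := range (3 ^ (n + 1)))
      (g := fun x => rc n sh a (c.R x)) (fun x _ => ?_) f
    rw [mem_range]
    unfold rc
    exact (Nat.div_le_self _ _).trans_lt (hR x)
  refine hsum.trans (le_of_eq ?_)
  rw [hf, sum_add_distrib, ← sum_mul, add_assoc]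
  refine congrArg₂ (· + ·) rfl ?_
  rw [← sum_sdiff (subset_univ Z), add_comm]
  refine congrArg₂ (· + ·) ?_ ?_
  · refine sum_congr rfl fun x hx => ?_
    rw [if_pos hx, mul_one]
  · refine sum_congr rfl fun x hx => ?_
    rw [if_neg (mem_sdiff.1 hx).2]

end Pool.Agent.ZR
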