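import Pool.Agent.helper99.ZR.Spec

set_option autoImplicit false

namespace Pool.Agent.ZR

open Pool.Agent

theorem asm
    (gCHR : GA.CHR_stmt) (gCHI : GA.CHI_stmt) (gFLP : GA.FLP_stmt) (gALG : GA.ALG_stmt) (gPOT : GA.POT_stmt)
    (gCMB : GA.CMB_stmt) (gBAL : GA.BAL_stmt) (gPT1 : GA.PT1_stmt) (gCV1 : GA.CV1_stmt) (gCV2 : GA.CV2_stmt)
    (gLGW : GA.LGW_stmt) (gAVG : GA.AVG_stmt) (gPSV : GA.PSV_stmt) (gMUL : GA.MUL_stmt) (gNRM : GA.NRM_stmt)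
    (gFP1 : GA.FP1_stmt) (gFP2 : GA.FP2_stmt)
    (FLP : ZR.FLP_stmt)
    (ST1 : GA.CHR_stmt → GA.CHI_stmt → GA.FLP_stmt → ZR.FLP_stmt → ZR.ST1_stmt)
    (STP : GA.CHI_stmt → GA.FLP_stmt → GA.ALG_stmt → GA.POT_stmt → ZR.ST1_stmt → ZR.STP_stmt)
    (ON1 : GA.CHI_stmt → ZR.STP_stmt → ZR.ON1_stmt)
    (ONE : GA.CHI_stmt → GA.POT_stmt → ZR.ON1_stmt → ZR.ONE_stmt)
    (UPP : ZR.UPP_stmt)
    (TW1 : GA.CHI_stmt → GA.CMB_stmt → GA.BAL_stmt → GA.PT1_stmt → ZR.TW1_stmt)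
    (TWO : GA.CHI_stmt → GA.CV1_stmt → GA.CV2_stmt → GA.LGW_stmt → ZR.UPP_stmt → GA.AVG_stmt → ZR.TW1_stmt → ZR.TWO_stmt)
    (MPP : GA.CHI_stmt → GA.POT_stmt → ZR.ONE_stmt → GA.PT1_stmt → ZR.TWO_stmt → ZR.MPP_stmt)
    (SMU : GA.MUL_stmt → GA.NRM_stmt → ZR.SMU_stmt)
    (DSM : GA.CHR_stmt → GA.CHI_stmt → ZR.MPP_stmt → GA.PSV_stmt → ZR.SMU_stmt → ZR.DSM_stmt)
    (TOT : GA.CHI_stmt → TOT_stmt)
    (LIG : LIG_stmt)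
    (LW1 : GA.CHI_stmt → LW1_stmt)
    (LW2 : TOT_stmt → LW1_stmt → LW2_stmt)
    (L1W : ZR.DSM_stmt → TOT_stmt → LIG_stmt → LW2_stmt → L1W_stmt)
    (NUM : NUM_stmt)
    (KST : L1W_stmt → NUM_stmt → GA.FP1_stmt → GA.FP2_stmt → KST_stmt)
    (SP3 : SP3_stmt)
    (TEL : KST_stmt → SP3_stmt → TOT_stmt → TEL_stmt)
    (FRO : FRO_stmt)
    (INC : INC_stmt)
    (GAU : GAU_stmt)
    (DI1 : FRO_stmt → DI1_stmt)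
    (DI2 : DI2_stmt)
    (FN1 : TEL_stmt → INC_stmt → DI1_stmt → DI2_stmt → FN1_stmt)
    (FIN : FN1_stmt → GAU_stmt → ZR.FIN_stmt) : ZR.FIN_stmt := by
  have hST1 := ST1 gCHR gCHI gFLP FLP
  have hSTP := STP gCHI gFLP gALG gPOT hST1
  have hON1 := ON1 gCHI hSTP
  have hONE := ONE gCHI gPOT hON1
  have hTW1 := TW1 gCHI gCMB gBAL gPT1
  have hTWO := TWO gCHI gCV1 gCV2 gLGW UPP gAVG hTW1
  have hMPP := MPP gCHI gPOT hONE gPT1 hTWO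
  have hSMU := SMU gMUL gNRM
  have hDSM := DSM gCHR gCHI hMPP gPSV hSMU
  have hTOT := TOT gCHI
  have hLW1 := LW1 gCHI
  have hLW2 := LW2 hTOT hLW1
  have hL1W := L1W hDSM hTOT LIG hLW2
  have hKST := KST hL1W NUM gFP1 gFP2
  have hTEL := TEL hKST SP3 hTOT
  have hDI1 := DI1 FRO
  have hFN1 := FN1 hTEL INC hDI1 DI2
  exact FIN hFN1 GAU

end Pool.Agent.ZR
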