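import Pool.Agent.helper99.ZR.Spec

/-! # zr: row FN1 -/

set_option autoImplicit false

open Finset
open Pool.Agent.helper32.Cant
open Pool.Agent.GA (nrm chi ch St sg flp Psi rc ph pot rpot far nc gf ncs gfs good mj om pick pat et kap mult)
open scoped ENNReal

namespace Pool.Agent.ZR

theorem FN1_mono (ψ : ℕ → ℝ≥0∞) {E E' : Set ℝ} (h : E ⊆ E') : cont ψ E ≤ cont ψ E' := by
  unfold cont
  refine le_iInf₂ fun A hA => ?_
  exact iInf₂_le A fun s hs => hA s (h hs)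

theorem FN1_Es_mono (U : Set ℝ) (lam x : ℝ) {δ δ' : ℝ} (h : δ' ≤ δ) : Es U lam δ x ⊆ Es U lam δ' x :=
  fun _ hs => ⟨hs.1, hs.2.1, fun c hc y hy => hs.2.2 c hc y (hy.trans_le h)⟩

theorem FN1_sub {B U : Set ℝ} (hBU : B ⊆ U) (hU : IsOpen U) (lam x : ℝ) :
    {s : ℝ | 0 ≤ s ∧ s < 1 ∧ ∀ c ∈ cantorSet, x + lam * (1 + s) * (c - 1 / 2) ∈ B} ⊆
      ⋃ i : ℕ, Es U lam (1 / ((i : ℝ) + 1)) x := by
  intro s hs
  obtain ⟨h0, h1, h2⟩ := hs
  have hK : IsCompact ((fun c : ℝ => x + lam * (1 + s) * (c - 1 / 2)) '' cantorSet) :=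
    isCompact_cantorSet.image (by fun_prop)
  have hKU : ((fun c : ℝ => x + lam * (1 + s) * (c - 1 / 2)) '' cantorSet) ⊆ U := by
    rintro _ ⟨c, hc, rfl⟩
    exact hBU (h2 c hc)
  obtain ⟨δ, hδ, hδU⟩ := hK.exists_thickening_subset_open hU hKU
  obtain ⟨i, hi⟩ := exists_nat_one_div_lt hδ
  refine Set.mem_iUnion.2 ⟨i, h0, h1, fun c hc y hy => hδU ?_⟩
  rw [Metric.mem_thickening_iff]
  refine ⟨_, ⟨c, hc, rfl⟩, ?_⟩
  rw [Real.dist_eq]
  exact hy.trans hi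

theorem FN1 (hTEL : TEL_stmt) (hINC : INC_stmt) (hDI1 : DI1_stmt) (hDI2 : DI2_stmt) : FN1_stmt := by
  intro B hB o lam s₀ hlam hs₀ S hS hcont
  by_contra hne
  have hfin : MeasureTheory.volume S ≠ ⊤ := by
    have hsub : S ⊆ Set.Ico o (o + lam) := fun x hx => ⟨(hS x hx).1, (hS x hx).2⟩
    refine ne_top_of_le_ne_top ?_ (MeasureTheory.measure_mono hsub)
    rw [Real.volume_Ico]
    exact ENNReal.ofReal_ne_top
  obtain ⟨v, hv⟩ : ∃ v : ℝ, v = (MeasureTheory.volume S).toReal := ⟨_, rfl⟩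
  have hv0 : 0 < v := by rw [hv]; exact ENNReal.toReal_pos hne hfin
  have hvS : ENNReal.ofReal v = MeasureTheory.volume S := by
    rw [hv, ENNReal.ofReal_toReal hfin]
  obtain ⟨k₀, hk₀⟩ := hTEL (v / 2 / lam) (3 / s₀) (by positivity) (by positivity)
  have hlt : MeasureTheory.volume B < ENNReal.ofReal (lam / (4 * 3 ^ k₀)) := by
    rw [hB]
    exact ENNReal.ofReal_pos.2 (by positivity)
  obtain ⟨U, hBU, hUo, hUv⟩ := B.exists_isOpen_lt_of_lt _ hlt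
  obtain ⟨Si, hSi⟩ : ∃ Si : ℕ → Set ℝ, Si = fun i : ℕ => {x | x ∈ S ∧
      ENNReal.ofReal s₀ < cont (psE (10 ^ 14)) (Es U lam (1 / ((i : ℝ) + 1)) x)} := ⟨_, rfl⟩
  have hmonE : ∀ (x : ℝ), ∀ i : ℕ, Es U lam (1 / ((i : ℝ) + 1)) x ⊆
      Es U lam (1 / (((i + 1 : ℕ) : ℝ) + 1)) x := by
    intro x i
    refine FN1_Es_mono U lam x ?_
    push_cast
    exact one_div_le_one_div_of_le (by positivity) (by linarith)
  have hmonS : Monotone Si := by
    refine monotone_nat_of_le_succ fun i => ?_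
    rw [hSi]
    intro x hx
    exact ⟨hx.1, hx.2.trans_le (FN1_mono _ (hmonE x i))⟩
  have hSU : S = ⋃ i, Si i := by
    refine Set.Subset.antisymm (fun x hx => ?_) (Set.iUnion_subset fun i => ?_)
    · by_contra hc
      have h1 : ∀ i : ℕ, cont (psE (10 ^ 14)) (Es U lam (1 / ((i : ℝ) + 1)) x) ≤ ENNReal.ofReal s₀ := by
        intro i
        by_contra h2
        refine hc (Set.mem_iUnion.2 ⟨i, ?_⟩)
        rw [hSi]
        exact ⟨hx, not_le.1 h2⟩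
      have h2 := hINC (psE (10 ^ 14)) (fun i => Es U lam (1 / ((i : ℝ) + 1)) x) (ENNReal.ofReal s₀)
        (hmonE x) h1
      have h3 := (hcont x hx).trans_le ((FN1_mono _ (FN1_sub hBU hUo lam x)).trans h2)
      exact lt_irrefl _ h3
    · rw [hSi]
      exact fun x hx => hx.1
  have hsup : MeasureTheory.volume S = ⨆ i, MeasureTheory.volume (Si i) := by
    nth_rewrite 1 [hSU]
    exact hmonS.measure_iUnion
  have hhalf : ENNReal.ofReal (v / 2) < ⨆ i, MeasureTheory.volume (Si i) := by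
    rw [← hsup, ← hvS]
    exact (ENNReal.ofReal_lt_ofReal_iff hv0).2 (by linarith)
  obtain ⟨i, hi⟩ := lt_iSup_iff.1 hhalf
  obtain ⟨δ, hδ⟩ : ∃ δ : ℝ, δ = 1 / ((i : ℝ) + 1) := ⟨_, rfl⟩
  have hδ0 : 0 < δ := by rw [hδ]; positivity
  -- the levels
  obtain ⟨k', hk'⟩ : ∃ k' : ℕ, lam / 3 ^ k' < δ / 2 := by
    obtain ⟨k', hk'⟩ := pow_unbounded_of_one_lt (2 * lam / δ) (show (1 : ℝ) < 3 by norm_num)
    refine ⟨k', ?_⟩
    rw [div_lt_iff₀ hδ0] at hk'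
    rw [div_lt_iff₀ (by positivity)]
    linarith
  obtain ⟨k₁, hk₁⟩ : ∃ k₁ : ℕ, k₁ = max k₀ k' := ⟨_, rfl⟩
  have hk01 : k₀ ≤ k₁ := by rw [hk₁]; exact le_max_left _ _
  have hk'1 : k' ≤ k₁ := by rw [hk₁]; exact le_max_right _ _
  have hlk₁ : lam / 3 ^ k₁ < δ / 2 := by
    refine lt_of_le_of_lt ?_ hk'
    exact div_le_div_of_nonneg_left hlam.le (by positivity) (pow_le_pow_right₀ (by norm_num) hk'1)
  obtain ⟨n, hn⟩ : ∃ n : ℕ, n = k₁ + 61 * Nat.clog 3 k₁ + 2 := ⟨_, rfl⟩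
  have hln : 4 * lam / 3 ^ n < δ / 2 := by
    refine lt_of_le_of_lt ?_ hlk₁
    have h1 : (3 : ℝ) ^ (k₁ + 2) ≤ 3 ^ n := pow_le_pow_right₀ (by norm_num) (by omega)
    calc 4 * lam / 3 ^ n ≤ 4 * lam / 3 ^ (k₁ + 2) :=
          div_le_div_of_nonneg_left (by positivity) (by positivity) h1
      _ ≤ lam / 3 ^ k₁ := by
          rw [div_le_div_iff₀ (by positivity) (by positivity), pow_add]
          have : 0 < lam * 3 ^ k₁ := by positivity
          nlinarith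
  obtain ⟨X, hX, c, hc1, hc2, hc3⟩ := hDI1 (10 ^ 14) (by norm_num) U (Si i) o lam δ s₀ (v / 2) hlam hs₀
    (by positivity) (fun x hx => by rw [hSi] at hx; exact hS x hx.1) hi.le
    (fun x hx => by rw [hSi] at hx; rw [hδ]; exact hx.2) n
  obtain ⟨G, hG1, hG2⟩ := hDI2 n k₁ X c U o lam δ hlam (by omega) (by linarith)
    (fun z => by
      obtain ⟨x, -, s, hs, h1, h2⟩ := hc3 z
      exact ⟨x, s, hs, h1, h2⟩)
  have h4 := hk₀ n k₁ hk01 (by omega) X c hc1 hc2 G hG1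
  have h5 : lam / (4 * 3 ^ k₀) ≤ lam * G.card / 3 ^ (2 * n) := by
    have e : (3 : ℝ) ^ (2 * n) = 3 ^ (2 * n - k₀) * 3 ^ k₀ := by
      rw [← pow_add]
      congr 1
      omega
    rw [div_le_div_iff₀ (by positivity) (by positivity), e]
    have h6 : 0 < (3 : ℝ) ^ k₀ := by positivity
    have h7 : 0 < (3 : ℝ) ^ (2 * n - k₀) := by positivity
    calc lam * (3 ^ (2 * n - k₀) * 3 ^ k₀) ≤ lam * ((4 * G.card) * 3 ^ k₀) := by
          apply mul_le_mul_of_nonneg_left _ hlam.le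
          apply mul_le_mul_of_nonneg_right _ h6.le
          linarith
      _ = lam * G.card * (4 * 3 ^ k₀) := by ring
  have h8 := (ENNReal.ofReal_le_ofReal h5).trans hG2
  exact absurd (h8.trans_lt hUv) (lt_irrefl _)

end Pool.Agent.ZR
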