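import Pool.Agent.helper99.ZR.Spec

/-! # zr: row INC, the increasing sets lemma for the triadic content -/

set_option autoImplicit false

open Finset
open Pool.Agent.helper32.Cant
open Pool.Agent.GA (nrm chi ch St sg flp Psi rc ph pot rpot far nc gf ncs gfs good mj om pick pat et kap mult)
open scoped ENNReal

namespace Pool.Agent.ZR

/-- `c` is contained in `c'` -/
def INC_le (c c' : ℕ × ℤ) : Prop := c'.1 ≤ c.1 ∧ c.2 / 3 ^ (c.1 - c'.1) = c'.2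

theorem INC_refl (c : ℕ × ℤ) : INC_le c c := ⟨le_rfl, by simp⟩

theorem INC_trans {a b c : ℕ × ℤ} (h1 : INC_le a b) (h2 : INC_le b c) : INC_le a c := by
  refine ⟨h2.1.trans h1.1, ?_⟩
  have e : a.1 - c.1 = (a.1 - b.1) + (b.1 - c.1) := by
    have := h1.1
    have := h2.1
    omega
  rw [e, pow_add, ← Int.ediv_ediv_of_nonneg (by positivity), h1.2, h2.2]

theorem INC_antisymm {a b : ℕ × ℤ} (h1 : INC_le a b) (h : b.1 = a.1) : b = a := by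
  have h2 := h1.2
  rw [h, Nat.sub_self, pow_zero, Int.ediv_one] at h2
  exact Prod.ext h h2.symm

theorem INC_floor {c c' : ℕ × ℤ} {s : ℝ} (h1 : ⌊(3 : ℝ) ^ c.1 * s⌋ = c.2)
    (h2 : ⌊(3 : ℝ) ^ c'.1 * s⌋ = c'.2) (h : c'.1 ≤ c.1) : INC_le c c' := by
  refine ⟨h, ?_⟩
  have e := Int.floor_div_natCast ((3 : ℝ) ^ c.1 * s) (3 ^ (c.1 - c'.1))
  rw [h1] at e
  push_cast at e
  rw [← e, ← h2]
  congr 1
  rw [div_eq_iff (by positivity)]
  have : (3 : ℝ) ^ c.1 = 3 ^ c'.1 * 3 ^ (c.1 - c'.1) := by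
    rw [← pow_add]
    congr 1
    omega
  rw [this]
  ring

theorem INC_mem {c c' : ℕ × ℤ} {s : ℝ} (h1 : ⌊(3 : ℝ) ^ c.1 * s⌋ = c.2) (h : INC_le c c') :
    ⌊(3 : ℝ) ^ c'.1 * s⌋ = c'.2 := by
  have h3 := INC_floor (c := c) (c' := (c'.1, ⌊(3 : ℝ) ^ c'.1 * s⌋)) h1 rfl h.1
  have h4 := h3.2
  simp only at h4
  rw [← h4, h.2]

/-- the maximal elements -/
def INC_Mx (G : Set (ℕ × ℤ)) : Set (ℕ × ℤ) := {c | c ∈ G ∧ ∀ c' ∈ G, INC_le c c' → c' = c}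

theorem INC_ex (G : Set (ℕ × ℤ)) {c : ℕ × ℤ} (hc : c ∈ G) : ∃ a ∈ INC_Mx G, INC_le c a := by
  classical
  have hex : ∃ j : ℕ, ∃ a ∈ G, INC_le c a ∧ a.1 = j := ⟨c.1, c, hc, INC_refl c, rfl⟩
  obtain ⟨a, haG, hca, haj⟩ := Nat.find_spec hex
  refine ⟨a, ⟨haG, fun c' hc' hac => ?_⟩, hca⟩
  have h1 := Nat.find_min' hex ⟨c', hc', INC_trans hca hac, rfl⟩
  exact INC_antisymm hac (le_antisymm hac.1 (by omega))

theorem INC_cov {G : Set (ℕ × ℤ)} {E : Set ℝ} (h : Cov G E) : Cov (INC_Mx G) E := by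
  intro s hs
  obtain ⟨c, hc, hcs⟩ := h s hs
  obtain ⟨a, ha, hca⟩ := INC_ex G hc
  exact ⟨a, ha, INC_mem hcs hca⟩

theorem INC_add (ψ : ℕ → ℝ≥0∞) {A B : Set (ℕ × ℤ)} (h : A ⊆ B) :
    cst ψ B = cst ψ (B \ A) + cst ψ A := by
  have h1 := Summable.tsum_union_disjoint (f := fun c : ℕ × ℤ => ψ c.1) (s := B \ A) (t := A)
    disjoint_sdiff_self_left ENNReal.summable ENNReal.summable
  rw [Set.sdiff_union_of_subset h] at h1
  exact h1

theorem INC_mono (ψ : ℕ → ℝ≥0∞) {A B : Set (ℕ × ℤ)} (h : A ⊆ B) : cst ψ A ≤ cst ψ B :=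
  ENNReal.tsum_mono_subtype (fun c : ℕ × ℤ => ψ c.1) h

theorem INC_union (ψ : ℕ → ℝ≥0∞) (A B : Set (ℕ × ℤ)) : cst ψ (A ∪ B) ≤ cst ψ A + cst ψ B :=
  ENNReal.tsum_union_le (fun c : ℕ × ℤ => ψ c.1) A B

theorem INC_cont_le (ψ : ℕ → ℝ≥0∞) {A : Set (ℕ × ℤ)} {E : Set ℝ} (h : Cov A E) :
    cont ψ E ≤ cst ψ A := iInf₂_le A h

/-- the step -/
theorem INC_step (ψ : ℕ → ℝ≥0∞) {G A : Set (ℕ × ℤ)} {E E' : Set ℝ} (hE : E ⊆ E')
    (hG : Cov G E) (hA : Cov A E') {ε : ℝ≥0∞} (hc : cst ψ (INC_Mx G) ≠ ⊤)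
    (h : cst ψ (INC_Mx G) ≤ cont ψ E + ε) :
    cst ψ (INC_Mx (G ∪ A)) ≤ cst ψ A + ε := by
  set H := INC_Mx G with hH
  set P : Set (ℕ × ℤ) := {c | c ∈ H ∧ ∀ c' ∈ A, INC_le c c' → c' = c} with hP
  set D : Set (ℕ × ℤ) := {c' | c' ∈ A ∧ ∃ c ∈ P, INC_le c' c} with hD
  have hPH : P ⊆ H := fun c hc => hc.1
  have hDA : D ⊆ A := fun c hc => hc.1
  have h1 : Cov ((H \ P) ∪ D) E := by
    intro s hs
    obtain ⟨c, hcH, hcs⟩ := INC_cov hG s hs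
    by_cases hcP : c ∈ P
    · obtain ⟨c', hc', hcs'⟩ := hA s (hE hs)
      refine ⟨c', Or.inr ⟨hc', c, hcP, ?_⟩, hcs'⟩
      rcases le_total c.1 c'.1 with h2 | h2
      · exact INC_floor hcs' hcs h2
      · have h3 := INC_floor hcs hcs' h2
        rw [hcP.2 c' hc' h3]
        exact INC_refl c
    · exact ⟨c, Or.inl ⟨hcH, hcP⟩, hcs⟩
  have h2 : cont ψ E ≤ cst ψ (H \ P) + cst ψ D := (INC_cont_le ψ h1).trans (INC_union ψ _ _)
  have h3 : cst ψ H = cst ψ (H \ P) + cst ψ P := INC_add ψ hPH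
  have h4 : cst ψ (H \ P) ≠ ⊤ := ne_top_of_le_ne_top hc (INC_mono ψ Set.sdiff_subset)
  have h5 : cst ψ P ≤ cst ψ D + ε := by
    have h6 : cst ψ (H \ P) + cst ψ P ≤ cst ψ (H \ P) + (cst ψ D + ε) := by
      rw [← h3]
      refine h.trans ?_
      rw [← add_assoc]
      exact add_le_add h2 le_rfl
    exact (ENNReal.add_le_add_iff_left h4).1 h6
  have h6 : INC_Mx (G ∪ A) ⊆ P ∪ (A \ D) := by
    intro c hc
    by_cases hcP : c ∈ P
    · exact Or.inl hcP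
    · right
      have hcA : c ∈ A := by
        rcases hc.1 with hcG | hcA
        · exact absurd ⟨⟨hcG, fun c' hc' hle => hc.2 c' (Or.inl hc') hle⟩,
            fun c' hc' hle => hc.2 c' (Or.inr hc') hle⟩ hcP
        · exact hcA
      refine ⟨hcA, fun hcD => ?_⟩
      obtain ⟨-, a, haP, hle⟩ := hcD
      have := hc.2 a (Or.inl haP.1.1) hle
      exact hcP (this ▸ haP)
  calc cst ψ (INC_Mx (G ∪ A)) ≤ cst ψ (P ∪ (A \ D)) := INC_mono ψ h6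
    _ ≤ cst ψ P + cst ψ (A \ D) := INC_union ψ _ _
    _ ≤ (cst ψ D + ε) + cst ψ (A \ D) := add_le_add h5 le_rfl
    _ = (cst ψ (A \ D) + cst ψ D) + ε := by ring
    _ = cst ψ A + ε := by rw [← INC_add ψ hDA]

/-- the union of the first covers -/
def INC_G (A : ℕ → Set (ℕ × ℤ)) : ℕ → Set (ℕ × ℤ)
  | 0 => A 0
  | i + 1 => INC_G A i ∪ A (i + 1)

theorem INC_sub (A : ℕ → Set (ℕ × ℤ)) (i : ℕ) : A i ⊆ INC_G A i := by
  cases i with
  | zero => exact le_rfl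
  | succ i => exact fun c hc => Or.inr hc

theorem INC_Gmono (A : ℕ → Set (ℕ × ℤ)) : Monotone (INC_G A) :=
  monotone_nat_of_le_succ fun i => fun c hc => Or.inl hc

theorem INC : INC_stmt := by
  classical
  intro ψ F s hF hs
  rcases eq_or_ne s ⊤ with hst | hst
  · rw [hst]; exact le_top
  refine ENNReal.le_of_forall_pos_le_add fun ε hε _ => ?_
  obtain ⟨δ, hδ, hδs⟩ := ENNReal.exists_pos_sum_of_countable' (ENNReal.coe_pos.2 hε).ne' ℕ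
  have hex : ∀ i, ∃ A : Set (ℕ × ℤ), Cov A (F i) ∧ cst ψ A ≤ cont ψ (F i) + δ i := by
    intro i
    have h1 : cont ψ (F i) < cont ψ (F i) + δ i :=
      ENNReal.lt_add_right (ne_top_of_le_ne_top hst (hs i)) (hδ i).ne'
    have h2 : ∃ A : Set (ℕ × ℤ), ∃ _ : Cov A (F i), cst ψ A < cont ψ (F i) + δ i := by
      have h3 : (⨅ (A : Set (ℕ × ℤ)) (_ : Cov A (F i)), cst ψ A) < cont ψ (F i) + δ i := h1
      rw [iInf_lt_iff] at h3
      obtain ⟨A, hA⟩ := h3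
      rw [iInf_lt_iff] at hA
      obtain ⟨hc, hA⟩ := hA
      exact ⟨A, hc, hA⟩
    obtain ⟨A, hc, hA⟩ := h2
    exact ⟨A, hc, hA.le⟩
  choose A hA1 hA2 using hex
  have hcovG : ∀ i, Cov (INC_G A i) (F i) := by
    intro i y hy
    obtain ⟨c, hc, hcy⟩ := hA1 i y hy
    exact ⟨c, INC_sub A i hc, hcy⟩
  have hδt : ∀ i, ∑ j ∈ range i, δ j ≤ ε := fun i =>
    (ENNReal.sum_le_tsum _).trans hδs.le
  have hmain : ∀ i, cst ψ (INC_Mx (INC_G A i)) ≤ cont ψ (F i) + ∑ j ∈ range (i + 1), δ j := by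
    intro i
    induction i with
    | zero =>
      rw [Finset.sum_range_one]
      exact (INC_mono ψ (fun c hc => hc.1)).trans (hA2 0)
    | succ i ih =>
      have h1 := INC_step ψ (G := INC_G A i) (A := A (i + 1)) (E := F i) (E' := F (i + 1)) (hF i)
        (hcovG i) (hA1 (i + 1)) (ε := ∑ j ∈ range (i + 1), δ j)
        (ne_top_of_le_ne_top (ENNReal.add_ne_top.2 ⟨ne_top_of_le_ne_top hst (hs i),
          ne_top_of_le_ne_top ENNReal.coe_ne_top (hδt (i + 1))⟩) ih) ih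
      refine h1.trans ?_
      rw [Finset.sum_range_succ _ (i + 1)]
      refine (add_le_add (hA2 (i + 1)) le_rfl).trans (le_of_eq ?_)
      ring
  set G : Set (ℕ × ℤ) := ⋃ i, INC_G A i with hG
  have hcov : Cov (INC_Mx G) (⋃ i, F i) := by
    refine INC_cov fun y hy => ?_
    obtain ⟨i, hi⟩ := Set.mem_iUnion.1 hy
    obtain ⟨c, hc, hcy⟩ := hcovG i y hi
    exact ⟨c, Set.mem_iUnion.2 ⟨i, hc⟩, hcy⟩
  refine (INC_cont_le ψ hcov).trans ?_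
  unfold cst
  rw [ENNReal.tsum_eq_iSup_sum]
  refine iSup_le fun T => ?_
  have hT : ∃ i, ∀ c ∈ T, (c : ℕ × ℤ) ∈ INC_G A i := by
    induction T using Finset.induction_on with
    | empty => exact ⟨0, fun c hc => absurd hc (Finset.notMem_empty c)⟩
    | insert a T _ ih =>
      obtain ⟨i, hi⟩ := ih
      obtain ⟨j, hj⟩ := Set.mem_iUnion.1 a.2.1
      refine ⟨max i j, fun c hc => ?_⟩
      rcases Finset.mem_insert.1 hc with h | h
      · rw [h]; exact INC_Gmono A (le_max_right i j) hj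
      · exact INC_Gmono A (le_max_left i j) (hi c h)
  obtain ⟨i, hi⟩ := hT
  have h1 : ∑ c ∈ T, ψ (c : ℕ × ℤ).1 ≤ cst ψ (INC_Mx (INC_G A i)) := by
    have h2 : ∀ c ∈ T, (c : ℕ × ℤ) ∈ INC_Mx (INC_G A i) := fun c hc =>
      ⟨hi c hc, fun c' hc' hle => c.2.2 c' (Set.mem_iUnion.2 ⟨i, hc'⟩) hle⟩
    have h3 : ∑ c ∈ T, ψ (c : ℕ × ℤ).1 = ∑ c ∈ T.image Subtype.val, ψ c.1 := by
      rw [Finset.sum_image]
      intro a _ b _ hab
      exact Subtype.ext hab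
    rw [h3]
    have h4 : ((T.image Subtype.val : Finset (ℕ × ℤ)) : Set (ℕ × ℤ)) ⊆
        INC_Mx (INC_G A i) := by
      intro c hc
      obtain ⟨a, ha, rfl⟩ := Finset.mem_image.1 (Finset.mem_coe.1 hc)
      exact h2 a ha
    refine le_trans (le_of_eq ?_) (INC_mono ψ h4)
    unfold cst
    exact (Finset.tsum_subtype' _ (fun c : ℕ × ℤ => ψ c.1)).symm
  calc ∑ c ∈ T, ψ (c : ℕ × ℤ).1 ≤ cst ψ (INC_Mx (INC_G A i)) := h1
    _ ≤ cont ψ (F i) + ∑ j ∈ range (i + 1), δ j := hmain i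
    _ ≤ s + ε := add_le_add (hs i) (hδt _)

end Pool.Agent.ZR
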