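import Pool.Agent.helper4.GA.Defs
import Pool.Agent.helper4.GA.Spec

/-!
# Project zr (MP_3c0a64_an): for a null set `B` and almost every `x` the set of the radii `r` with `x + r (K - 1/2) ⊆ B` has dimension zero

Page: team store, `C6_MP_3c0a64_an_helper99.md`. On the base of the project ga of helper4 (`Pool/Agent/helper4/GA/{Defs,Spec}.lean`, proofs listed in `Pool/Agent/helper4/GA/Main.lean`).

THE CHANGE: a configuration (one radius for every centre `x : Fin (3^n)`, weight one) is replaced by a family `c : Fam n X` of pairs (centre, radius) with weights `c.a z > 0`, and in the error terms `n` is replaced by `h`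
(any number with `κ ≤ h`). The rows FLP ST1 STP ON1 ONE UPP TW1 TWO MPP SMU DSM are the rows of the same name of project ga with `Fin (3^n)`, `wt`, `NN`, `VV`, `uv`, `DD`, `hv` replaced by `X`, `wm`, `NM`, `VM`, `um`, `DM`, `hm`:
COPY the Lean proof named in the docstring and change the names (`chi` times the weight `c.a z`, which is positive). All the other rows of ga which are used (CHR CHI FLP ALG POT CMB BAL CV1 CV2 LGW AVG PT1 PSV MUL NRM FP1 FP2) are general.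

Rules: file `Pool/Agent/<seat>/ZR/XX.lean`, `import Pool.Agent.helper99.ZR.Spec`, `set_option autoImplicit false`, `namespace Pool.Agent.ZR`, the open lines of this file, `theorem XX (h : YY_stmt) ... : XX_stmt`; hypotheses: the rows named in
the docstring (rows of ga are written `Pool.Agent.GA.YY_stmt`; careful: this namespace opens `Pool.Agent.GA`, so write the full names `Pool.Agent.GA.FLP_stmt` and `Pool.Agent.ZR.FLP_stmt` where both exist). You may also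
import the proved files of ga and cant and use the theorems directly. Auxiliary lemmas are prefixed `XX_`. No sorry, no double quotes, no `congr!`, no `convert`. A wrong or awkward statement: tell helper99 at once.
-/

set_option autoImplicit false
set_option linter.unusedVariables false

namespace Pool.Agent.ZR

open Finset
open Pool.Agent.helper32.Cant
open Pool.Agent.GA (nrm chi ch St sg flp Psi rc ph pot rpot far nc gf ncs gfs good mj om pick pat et kap mult)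
open scoped ENNReal

noncomputable section

/-! ## Definitions -/

/-- A weighted family of pairs (centre, radius) at the scale `3^(-n)`: the centre is `ctr z / 3^n`, the radius is `R z / 3^n ∈ [1, 2)`. -/
structure Fam (n : ℕ) (X : Type) [Fintype X] where
  ctr : X → ℕ
  R : X → ℕ
  a : X → ℝ
  hc : ∀ z, ctr z < 3 ^ n
  lo : ∀ z, 3 ^ n ≤ R z
  hi : ∀ z, R z < 2 * 3 ^ n
  pos : ∀ z, 0 < a z

section
variable {n : ℕ} {X : Type} [Fintype X]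

/-- the point `u` of `z` -/
def um (c : Fam n X) (p : St n) (z : X) : ZMod (3 ^ (2 * n)) :=
  ((3 ^ n * (c.ctr z : ℤ) + (c.R z : ℤ) * E p.2 : ℤ) : ZMod (3 ^ (2 * n))) + p.1

/-- the weight of `z`: `a z` times the window of width `3^(2n-κ)` at `u` -/
def wm (c : Fam n X) (κ : ℕ) (p : St n) (z : X) : ℝ := c.a z * chi ((3 : ℝ) ^ (2 * n - κ)) (um c p z)

/-- the mass of a state -/
def NM (c : Fam n X) (κ : ℕ) (p : St n) : ℝ := ∑ z, wm c κ p z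

/-- the exponential sum of frequency `ξ` over `Y` -/
def VM (c : Fam n X) (κ : ℕ) (ξ : ZMod (3 ^ (2 * n))) (p : St n) (Y : Finset X) : ℂ :=
  ∑ z ∈ Y, (wm c κ p z : ℂ) * ch ξ (um c p z)

/-- the total mass -/
def Wt (c : Fam n X) : ℝ := ∑ z, c.a z

/-- the windows of level `j` have mass at most `ω` over every centre -/
def Win (c : Fam n X) (j : ℕ) (ω : ℝ) : Prop :=
  ∀ x r : ℕ, ∑ z, c.a z * ind (c.ctr z = x ∧ |(c.R z : ℤ) - r| ≤ 3 ^ (n - j)) ≤ ω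

/-- the state is not light -/
def hm (c : Fam n X) (κ : ℕ) (y ω : ℝ) (p : St n) : Prop :=
  Real.exp y * (ω * 3 ^ (n - κ)) ≤ NM c κ p

/-- the difference of the masses of two neighbouring intervals of length `3^(2n-k-1)` -/
def DM (c : Fam n X) (κ k : ℕ) (p : St n) (v : ZMod (3 ^ (2 * n))) : ℝ :=
  ∑ z, wm c κ p z * (ind ((um c p z - v).val < 3 ^ (2 * n - (k + 1)))
    - ind ((um c p z - v - ((3 ^ (2 * n - (k + 1)) : ℕ) : ZMod (3 ^ (2 * n)))).val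
        < 3 ^ (2 * n - (k + 1))))

/-- the mass of the `z` with the point in the interval `[t, t + L)`, for the word `w` -/
def FI (c : Fam n X) (L : ℕ) (w : Word n) (t : ZMod (3 ^ (2 * n))) : ℝ :=
  ∑ z, c.a z * ind ((um c (0, w) z - t).val < L)

end

/-- the costs of the triadic cells (for the radii) -/
def psi (C : ℝ) (j : ℕ) : ℝ := Real.exp (-(C * Real.log j ^ 3))

/-- the gauge `exp (-C (log log (1/t))^3)` -/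
def gz (C : ℝ) (d : ℝ≥0∞) : ℝ≥0∞ :=
  ENNReal.ofReal (Real.exp (-(C * (Real.log (Real.log (1 / d.toReal))) ^ 3)))

/-- the cells `(j, q) = {s | ⌊3^j s⌋ = q}` of `A` cover `E` -/
def Cov (A : Set (ℕ × ℤ)) (E : Set ℝ) : Prop := ∀ s ∈ E, ∃ c ∈ A, ⌊(3 : ℝ) ^ c.1 * s⌋ = c.2

/-- the total cost of the cells of `A` -/
def cst (ψ : ℕ → ℝ≥0∞) (A : Set (ℕ × ℤ)) : ℝ≥0∞ := ∑' c : A, ψ (c : ℕ × ℤ).1

/-- the triadic content -/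
def cont (ψ : ℕ → ℝ≥0∞) (E : Set ℝ) : ℝ≥0∞ := ⨅ (A : Set (ℕ × ℤ)) (_ : Cov A E), cst ψ A

/-- the costs as extended numbers -/
def psE (C : ℝ) (j : ℕ) : ℝ≥0∞ := ENNReal.ofReal (psi C j)

/-- the radii `λ (1 + s)`, `s ∈ [0, 1)`, for which the `δ`-neighbourhood of `x + λ (1 + s) (K - 1/2)` is contained in `U` -/
def Es (U : Set ℝ) (lam δ x : ℝ) : Set ℝ :=
  {s | 0 ≤ s ∧ s < 1 ∧ ∀ c ∈ cantorSet, ∀ y : ℝ, |y - (x + lam * (1 + s) * (c - 1 / 2))| < δ → y ∈ U}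

/-! ## Group A: the rows of ga for families -/

/-- FLP (short). Copy the third part of `Pool/Agent/helper49/GA/FLP.lean`. -/
def FLP_stmt : Prop := ∀ (n : ℕ) (X : Type) [Fintype X] (c : Fam n X) (i : ℕ) (ρ : ℤ), i < n →
  ∀ (p : St n) (z : X), um c (Psi i ρ p) z = um c p z
    + ((-(2 * sg i p.2 * ((c.R z : ℤ) - ρ) * 3 ^ (n - 1 - i)) : ℤ) : ZMod (3 ^ (2 * n)))

/-- ST1 (copy `Pool/Agent/helper4/GA/ST1.lean`), from `GA.CHR_stmt`, `GA.CHI_stmt`, `GA.FLP_stmt` (the parts on `sg`; apply it to any `Cfg`), `FLP_stmt`. -/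
def ST1_stmt : Prop := ∀ (n : ℕ) (X : Type) [Fintype X] (c : Fam n X) (κ B a b g sh x r : ℕ) (ζ : ℝ)
  (Y : Finset X) (p : St n),
  κ < B → B ≤ n → a ≤ κ → a + g ≤ b → b ≤ n → sh < 3 ^ n → (x : ℝ) = ζ * 3 ^ B →
  1 / 8 ≤ ζ → ζ ≤ 3 / 8 → (∀ y ∈ Y, rc n sh a (c.R y) = r) →
  (∀ y ∈ Y, Real.exp (-(2 * 3 ^ κ / 3 ^ B)) * wm c κ p y
        ≤ wm c κ (Psi (B - 1 - a) ((r : ℤ) * 3 ^ (n - a) - sh) p) y ∧
      wm c κ (Psi (B - 1 - a) ((r : ℤ) * 3 ^ (n - a) - sh) p) y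
        ≤ Real.exp (2 * 3 ^ κ / 3 ^ B) * wm c κ p y) ∧
  ∃ e : ℕ → ℂ, ((∀ r', e r' = ph ζ (b - a) r') ∨
      (∀ r', e r' = (starRingEnd ℂ) (ph ζ (b - a) r'))) ∧
    ‖VM c κ (x : ZMod (3 ^ (2 * n))) (Psi (B - 1 - a) ((r : ℤ) * 3 ^ (n - a) - sh) p) Y‖ ≤
      ‖∑ r' ∈ range (3 ^ (n + 1)),
          VM c κ (x : ZMod (3 ^ (2 * n))) p {y ∈ Y | rc n sh b (c.R y) = r'} * e r'‖
        + (3 * 3 ^ κ / 3 ^ B + 5 / 3 ^ g) * ∑ y ∈ Y, wm c κ p y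

/-- STP (copy `Pool/Agent/helper4/GA/STP.lean`), from `GA.CHI_stmt`, `GA.FLP_stmt` (the sum over `p` of a function of `Psi p`), `GA.ALG_stmt`, `GA.POT_stmt`, `ST1_stmt`. -/
def STP_stmt : Prop := ∀ (n : ℕ) (X : Type) [Fintype X] (c : Fam n X) (κ B a b g sh x r : ℕ) (l : List ℕ) (ζ η δ : ℝ)
  (Y : Finset X),
  κ < B → B ≤ n → a ≤ κ → a + g ≤ b → b ≤ n → sh < 3 ^ n → (x : ℝ) = ζ * 3 ^ B →
  1 / 8 ≤ ζ → ζ ≤ 3 / 8 → 0 < η → η ≤ 1 → 0 < δ → (∀ y ∈ Y, rc n sh a (c.R y) = r) →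
  ∑ p, ‖VM c κ (x : ZMod (3 ^ (2 * n))) p Y‖ ^ 2
      / pot n sh ζ η c.R (wm c κ p) (a :: b :: l) Y ≤
    (1 + δ) * Real.exp (2 * 3 ^ κ / 3 ^ B) *
      (∑ r' ∈ range (3 ^ (n + 1)), ∑ p,
        ‖VM c κ (x : ZMod (3 ^ (2 * n))) p {y ∈ Y | rc n sh b (c.R y) = r'}‖ ^ 2
          / pot n sh ζ η c.R (wm c κ p) (b :: l) {y ∈ Y | rc n sh b (c.R y) = r'})
    + (1 + 1 / δ) * Real.exp (2 * 3 ^ κ / 3 ^ B) * (3 * 3 ^ κ / 3 ^ B + 5 / 3 ^ g) ^ 2 / (2 * η)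
      * ∑ p, ∑ y ∈ Y, wm c κ p y

/-- ON1 (copy `Pool/Agent/helper4/GA/ON1.lean`), from `GA.CHI_stmt`, `STP_stmt`. -/
def ON1_stmt : Prop := ∀ (n : ℕ) (X : Type) [Fintype X] (c : Fam n X) (κ B g sh x : ℕ) (ζ η δ Q E₀ : ℝ),
  κ < B → B ≤ n → sh < 3 ^ n → (x : ℝ) = ζ * 3 ^ B →
  1 / 8 ≤ ζ → ζ ≤ 3 / 8 → 0 < η → η ≤ 1 → 0 < δ →
  Q = (1 + δ) * Real.exp (2 * 3 ^ κ / 3 ^ B) →
  E₀ = (1 + 1 / δ) * Real.exp (2 * 3 ^ κ / 3 ^ B) * (3 * 3 ^ κ / 3 ^ B + 5 / 3 ^ g) ^ 2 / (2 * η) →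
  ∀ (l : List ℕ) (a r : ℕ) (Y : Finset X),
    List.IsChain (fun i j => i + g ≤ j) (a :: l) → (∀ i ∈ a :: l, i ≤ κ) →
    (∀ y ∈ Y, rc n sh a (c.R y) = r) →
    ∑ p, ‖VM c κ (x : ZMod (3 ^ (2 * n))) p Y‖ ^ 2 / pot n sh ζ η c.R (wm c κ p) (a :: l) Y ≤
      Q ^ l.length * (1 + l.length * E₀) * ∑ p, ∑ y ∈ Y, wm c κ p y

/-- ONE (copy `Pool/Agent/helper4/GA/ONE.lean` with `h` in place of `n` in the error terms, `δ = 1/h`), from `GA.CHI_stmt`, `GA.POT_stmt`, `ON1_stmt`. -/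
def ONE_stmt : Prop := ∀ (n h : ℕ) (X : Type) [Fintype X] (c : Fam n X) (κ B g sh x : ℕ) (ζ η : ℝ) (L : List ℕ),
  1 ≤ h → κ < B → B ≤ n → sh < 3 ^ n → (x : ℝ) = ζ * 3 ^ B → 1 / 8 ≤ ζ → ζ ≤ 3 / 8 →
  0 < η → η ≤ 1 → (2 : ℝ) * 3 ^ κ / 3 ^ B ≤ 1 / h →
  2 * (h : ℝ) ^ 2 * (3 * 3 ^ κ / 3 ^ B + 5 / 3 ^ g) ^ 2 ≤ η →
  L ≠ [] → List.IsChain (fun i j => i + g ≤ j) L → (∀ i ∈ L, i ≤ κ) → L.length ≤ h + 1 →
  ∑ p, ‖VM c κ (x : ZMod (3 ^ (2 * n))) p univ‖ ^ 2 / rpot n sh ζ η c.R (wm c κ p) L ≤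
    18 * ∑ p, NM c κ p

/-- UPP (adapt `Pool/Agent/helper71/GA/UPP.lean`). `t_x = 3^n x + R_z E(p.2) + p.1` for the centre `x < 3^n`; if `|R_y - R_z| ≤ 3^(n-j)` and `ctr y = x` then `um c p y = t_x + (R_y - R_z) E`, `|(R_y - R_z) E| ≤ ρ = 3^(2n-j)/2`, so
`chi ℓ (um c p y) ≤ B_x`, `B_x = 1` if `nrm t_x ≤ 2ρ` and `exp (-nrm t_x/(2ℓ))` otherwise, and `∑_(x < 3^n) B_x ≤ 40 * 3^(n-j)` as in the old proof (where `x` runs over `Fin (3^n)`). Sum over `y` with `ctr y = x` first: mass at most `ω` (`Win`). -/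
def UPP_stmt : Prop := ∀ (n : ℕ) (X : Type) [Fintype X] (c : Fam n X) (κ j : ℕ) (ω : ℝ) (p : St n) (z : X),
  Win c j ω → j ≤ κ → κ ≤ n → mj n c.R (wm c κ p) j z ≤ 40 * (ω * 3 ^ (n - j))

/-- TW1 (copy `Pool/Agent/helper93/GA/TW1.lean`), from `GA.CHI_stmt`, `GA.CMB_stmt`, `GA.BAL_stmt`, `GA.PT1_stmt`. -/
def TW1_stmt : Prop := ∀ (n : ℕ) (X : Type) [Fintype X] [DecidableEq X] (c : Fam n X) (κ g T sh : ℕ) (ζ η U : ℝ) (p : St n)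
  (o : Fin (T + 1) → Fin (2 * g)) (Z : Finset X),
  κ ≤ n → 4 ≤ g → 2 * g * T + g ≤ κ → sh < 3 ^ n → 1 / 8 ≤ ζ → ζ ≤ 3 / 8 → 0 < η → η ≤ 1 →
  rpot n sh ζ η c.R (wm c κ p) (pat g κ o) ≤
    NM c κ p * (Real.exp (-(U / 60000)) + η + Real.exp (-(2 * U))) + ∑ x ∈ Z, wm c κ p x
    + ∑ x ∈ univ \ Z, wm c κ p x * Real.exp (4 * U - ((pat g κ o).dropLast.map
        (fun i => ind (good n sh i (c.R x)) * om n c.R (wm c κ p) i x)).sum)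

/-- TWO (adapt `Pool/Agent/helper74/GA/TWO.lean`), from `GA.CHI_stmt`, `GA.CV1_stmt`, `GA.CV2_stmt`, `GA.LGW_stmt`, `UPP_stmt`, `GA.AVG_stmt`, `TW1_stmt`. With `h ≥ κ` in place of `n` in `et` (`(7 * 2gT + 9)/K ≤ 16 h/K` as `2gT + g ≤ κ ≤ h`), and UPP for
`j = 2gT + 2`: for `x ∉ Z`, `N/K ≤ mj 2 x`, `mj (2gT+2) x ≤ 40 ω 3^(n-2gT-2)` (and it is positive, so `ω > 0`), and `N ≥ e^y ω 3^(n-κ)` (`hm`): the quotient is again at least `e^y 3^(2gT+2-κ)/(40 K)`. -/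
def TWO_stmt : Prop := ∀ (n h : ℕ) (X : Type) [Fintype X] (c : Fam n X) (κ g T : ℕ) (ζ η y ω U K : ℝ) (p : St n),
  κ ≤ n → κ ≤ h → 4 ≤ g → 2 * g * T + g ≤ κ → κ ≤ 2 * g * T + 3 * g → 2 ≤ K →
  1 / 8 ≤ ζ → ζ ≤ 3 / 8 → 0 < η → η ≤ 1 → Win c (2 * g * T + 2) ω → hm c κ y ω p →
  ∑ o : Fin (T + 1) → Fin (2 * g), ∑ sh ∈ range (3 ^ n),
      rpot n sh ζ η c.R (wm c κ p) (pat g κ o) ≤
    (2 * g : ℝ) ^ (T + 1) * 3 ^ n * (NM c κ p * (η + et h g y U K))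

/-- MPP (adapt `Pool/Agent/helper4/GA/MPP.lean`), from `GA.CHI_stmt`, `GA.POT_stmt`, `ONE_stmt`, `GA.PT1_stmt`, `TWO_stmt`. `h` in place of `n` in the error terms (`pat` has length `≤ T + 1 ≤ κ + 1 ≤ h + 1`; `η = 8 h² 9^κ/x² ≤ 8/9` since `3 h 3^κ ≤ x`). -/
def MPP_stmt : Prop := ∀ (n h : ℕ) (X : Type) [Fintype X] (c : Fam n X) (κ g T x : ℕ) (y ω U K : ℝ),
  1 ≤ h → κ ≤ h → κ ≤ n → 4 ≤ g → 2 * g * T + g ≤ κ → κ ≤ 2 * g * T + 3 * g → 2 ≤ K →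
  Win c (2 * g * T + 2) ω →
  3 * h * 3 ^ κ ≤ x → 9 * x ≤ 3 ^ (g + κ) → 8 * x ≤ 3 ^ n →
  ∑ p, ind (hm c κ y ω p) * (‖VM c κ (x : ZMod (3 ^ (2 * n))) p univ‖ ^ 2 / NM c κ p) ≤
    18 * (8 * (h : ℝ) ^ 2 * 9 ^ κ / (x : ℝ) ^ 2 + et h g y U K) * ∑ p, NM c κ p

/-- SMU (adapt `Pool/Agent/helper99/GA/SMU.lean`: `h` in place of `n` in `x₀ = 3 h 3^κ` and in the error terms; `M = 3^(2n)` as before), from `GA.MUL_stmt`, `GA.NRM_stmt`. -/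
def SMU_stmt : Prop := ∀ (n h κ k x₁ : ℕ) (e : ℝ) (F : ZMod (3 ^ (2 * n)) → ℝ),
  1 ≤ h → κ ≤ k → k + 1 ≤ 2 * n → 0 ≤ e → 1 ≤ x₁ → (∀ ξ, 0 ≤ F ξ ∧ F ξ ≤ 1) →
  (∀ ξ, 3 * h * 3 ^ κ ≤ nrm ξ → nrm ξ ≤ x₁ →
    F ξ ≤ 18 * (8 * (h : ℝ) ^ 2 * 9 ^ κ / nrm ξ ^ 2 + e)) →
  ∑ ξ, mult (3 ^ (2 * n - (k + 1))) ξ * F ξ ≤
    ((3 : ℝ) ^ (2 * n - (k + 1))) ^ 2 * 3 ^ κ * kap h (k - κ) (x₁ / 3 ^ κ) e

/-- DSM (adapt `Pool/Agent/helper84/GA/DSM.lean`), from `GA.CHR_stmt`, `GA.CHI_stmt`, `MPP_stmt`, `GA.PSV_stmt`, `SMU_stmt`. (If `X` is empty everything is zero.) -/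
def DSM_stmt : Prop := ∀ (n h : ℕ) (X : Type) [Fintype X] (c : Fam n X) (κ k g T x₁ : ℕ) (y ω U K : ℝ),
  1 ≤ h → κ ≤ h → κ ≤ k → k + 1 ≤ n → 4 ≤ g → 2 * g * T + g ≤ κ → κ ≤ 2 * g * T + 3 * g → 2 ≤ K →
  1 ≤ x₁ → 9 * x₁ ≤ 3 ^ (g + κ) → 8 * x₁ ≤ 3 ^ n → Win c (2 * g * T + 2) ω →
  ∑ p, ind (hm c κ y ω p) * ((∑ v, DM c κ k p v ^ 2) / NM c κ p) ≤
    ((3 : ℝ) ^ (2 * n - (k + 1))) ^ 2 * 3 ^ κ / 3 ^ (2 * n)
      * kap h (k - κ) (x₁ / 3 ^ κ) (et h g y U K) * ∑ p, NM c κ p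

/-! ## Group B: the change of the density from one level to the next -/

/-- TOT (short-medium), from `GA.CHI_stmt`. For fixed `z`, `w` the map `τ ↦ um c (τ, w) z` is a bijection of `ZMod (3^(2n))`: `∑_p NM = Wt * 2^n * ∑_v chi ℓ v`, `ℓ = 3^(2n-κ) ≥ 1`, and `∑ chi ≤ 1 + 2ℓ ≤ 3ℓ` (CHI). `∑_t FI c L w t = L * Wt` (`t ↦ um - t` is a bijection,
`L` values are `< L`). -/
def TOT_stmt : Prop := ∀ (n : ℕ) (X : Type) [Fintype X] (c : Fam n X),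
  (∀ κ ≤ n, ∑ p, NM c κ p ≤ 3 * (2 ^ n * (3 ^ (2 * n - κ) * Wt c))) ∧
  (∀ κ p z, 0 < wm c κ p z) ∧ (∀ κ p, 0 ≤ NM c κ p) ∧ 0 ≤ Wt c ∧
  ∀ L ≤ 3 ^ (2 * n), ∀ w : Word n, (∑ t, FI c L w t = L * Wt c) ∧ ∀ t, 0 ≤ FI c L w t ∧ FI c L w t ≤ Wt c

/-- LIG (short). There are `3^(2n) 2^n` states, each light state has `NM < e^y ω 3^(n-κ)`. -/
def LIG_stmt : Prop := ∀ (n : ℕ) (X : Type) [Fintype X] (c : Fam n X) (κ : ℕ) (y ω : ℝ), 0 ≤ ω →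
  ∑ p, ind (¬ hm c κ y ω p) * NM c κ p ≤ 2 ^ n * 3 ^ (2 * n) * (Real.exp y * (ω * 3 ^ (n - κ)))

/-- LW1 (short-medium), from `GA.CHI_stmt`; compare `Pool/Agent/helper24/GA/WI2.lean`. `ℓ = 3^(2n-κ)`, `L = 3^(2n-k-1)`, `L/ℓ = 1/3^(k+1-κ) ≤ 1/3`. `um c (v - t, w) z - v = um c (0, w) z - t`. If one of the indicators is not zero, `um = v + d`, `0 ≤ d < 2L`,
and `|chi ℓ um - chi ℓ v| ≤ (e^(2L/ℓ) - 1) chi ℓ v ≤ 4 (L/ℓ) chi ℓ v`. So `|DM - chi ℓ v * (FI t - FI (t+L))| ≤ 4 (L/ℓ) chi ℓ v (FI t + FI (t+L))`, and `chi ℓ v ≥ e⁻¹ ≥ 1/3`. -/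
def LW1_stmt : Prop := ∀ (n : ℕ) (X : Type) [Fintype X] (c : Fam n X) (κ k : ℕ) (w : Word n)
  (t v : ZMod (3 ^ (2 * n))), κ ≤ k → k + 1 ≤ n → nrm v < 3 ^ (2 * n - κ) →
  |FI c (3 ^ (2 * n - (k + 1))) w t
      - FI c (3 ^ (2 * n - (k + 1))) w (t + ((3 ^ (2 * n - (k + 1)) : ℕ) : ZMod (3 ^ (2 * n))))| ≤
    3 * |DM c κ k (v - t, w) v| + 4 / 3 ^ (k + 1 - κ) * (FI c (3 ^ (2 * n - (k + 1))) w t
      + FI c (3 ^ (2 * n - (k + 1))) w (t + ((3 ^ (2 * n - (k + 1)) : ℕ) : ZMod (3 ^ (2 * n)))))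

/-- the total change -/
def TC {n : ℕ} {X : Type} [Fintype X] (c : Fam n X) (k : ℕ) : ℝ :=
  ∑ w : Word n, ∑ t, |FI c (3 ^ (2 * n - (k + 1))) w t
      - FI c (3 ^ (2 * n - (k + 1))) w (t + ((3 ^ (2 * n - (k + 1)) : ℕ) : ZMod (3 ^ (2 * n))))|

/-- LW2 (short-medium), from TOT, LW1. Average LW1 over the `v` with `nrm v < ℓ = 3^(2n-κ)`: there are at least `ℓ` of them (`v = 0, .., ℓ - 1`); `(t, w, v) ↦ ((v - t, w), v)` is a bijection. The last terms: `∑_t FI = L * Wt` twice, `2^n` words. -/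
def LW2_stmt : Prop := ∀ (n : ℕ) (X : Type) [Fintype X] (c : Fam n X) (κ k : ℕ), κ ≤ k → k + 1 ≤ n →
  TC c k ≤ 3 / 3 ^ (2 * n - κ) * (∑ p, ∑ v, ind (nrm v < 3 ^ (2 * n - κ)) * |DM c κ k p v|)
    + 8 / 3 ^ (k + 1 - κ) * (2 ^ n * (3 ^ (2 * n - (k + 1)) * Wt c))

/-- L1W (medium), from DSM, TOT, LIG, LW2; compare `Pool/Agent/helper82/GA/UFB.lean`. `ℓ = 3^(2n-κ)`, `L = 3^(2n-k-1)`. States with `hm`: Cauchy-Schwarz `∑_v ind |DM| ≤ √(2ℓ) √(∑ DM²)` (at most `2ℓ` elements with `nrm v < ℓ`),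
`∑_p ind √(∑_v DM²) ≤ √(∑ NM) √(∑_p ind (∑_v DM²)/NM) ≤ (∑ NM) L √(kap/ℓ)` (DSM, `3^κ/3^(2n) = 1/ℓ`), `∑ NM ≤ 3 ℓ 2^n Wt`: together `(3/ℓ) √(2ℓ) L √(kap/ℓ) 3 ℓ 2^n Wt = 9 √2 √kap 2^n L Wt`. The others: `∑_v |DM| ≤ 2 L NM p` (each indicator is one for `L` values of `v`), so by LIG
`(3/ℓ) 2 L 2^n 3^(2n) e^y ω 3^(n-κ) = 6 L 2^n e^y ω 3^n`. -/
def L1W_stmt : Prop := ∀ (n h : ℕ) (X : Type) [Fintype X] (c : Fam n X) (κ k g T x₁ : ℕ) (y ω U K : ℝ),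
  1 ≤ h → κ ≤ h → κ ≤ k → k + 1 ≤ n → 4 ≤ g → 2 * g * T + g ≤ κ → κ ≤ 2 * g * T + 3 * g → 2 ≤ K →
  1 ≤ x₁ → 9 * x₁ ≤ 3 ^ (g + κ) → 8 * x₁ ≤ 3 ^ n → 0 ≤ ω → Win c (2 * g * T + 2) ω →
  TC c k ≤ (13 * √(kap h (k - κ) (x₁ / 3 ^ κ) (et h g y U K)) + 8 / 3 ^ (k + 1 - κ)) * (2 ^ n * (3 ^ (2 * n - (k + 1)) * Wt c))
    + 6 * (3 ^ (2 * n - (k + 1)) * (2 ^ n * (Real.exp y * (ω * 3 ^ n))))

/-- NUM (short-medium; numbers). `m = Nat.clog 3 k ≤ log k/log 3 + 1 ≤ log k` for `k` large, `j ≥ k/2`, `(log j)^3 ≥ (log k)^3/2`: the exponent is at most `2*10^13 (log k)^3 - 5*10^13 (log k)^3`. -/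
def NUM_stmt : Prop := ∀ σ M : ℝ, 0 < σ → 0 < M → ∃ k₀ : ℕ, ∀ k ≥ k₀, ∀ j : ℕ, k ≤ 2 * j →
  6 * (Real.exp (2 * 10 ^ 13 * (Nat.clog 3 k : ℝ) ^ 3) * (M * psi (10 ^ 14) j)) ≤ σ * (1 / (2 * (k : ℝ) ^ 2)) ∧
  1 / (3 : ℝ) ^ (12 * Nat.clog 3 k) ≤ 1 / (2 * (k : ℝ) ^ 2) ∧ 606 * Nat.clog 3 k ≤ k ∧ 4 ≤ Nat.clog 3 k

/-- KST (medium), from L1W, NUM, `GA.FP1_stmt`, `GA.FP2_stmt`. `m = Nat.clog 3 k` (`k ≤ 3^m`), `κ = k - 30m`, `g = 91m`, `T = (κ - g)/(2g)`, `x₁ = 3^(κ + 90m)`, `h = k`, `y = 2*10^13 m³ - 1`, `U = 8400000 m`, `K = 3^(125m)`, `j = 2gT + 2 ≥ κ - 3g + 2 ≥ k - 303m ≥ k/2` and `j ≤ n`,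
`ω = M psi (10^14) j`. `9 x₁ ≤ 3^(g+κ)`, `8 x₁ ≤ 3^(κ + 90m + 2) ≤ 3^n`. FP1: `et ≤ 3^(-121m)`, FP2: `13 √kap + 3/3^(30m) ≤ 3^(-12m)` (`8/3^(k+1-κ) = (8/3)/3^(30m)`; FP2 has a general `e ≤ 1/3^(121m)`, take `e = et`, `0 ≤ et` for `K > 0`). The last term: `3^n ≤ Wt/σ` and NUM. -/
def KST_stmt : Prop := ∀ σ M : ℝ, 0 < σ → 0 < M → ∃ k₀ : ℕ, ∀ k ≥ k₀, ∀ n : ℕ, k + 61 * Nat.clog 3 k ≤ n →
  ∀ (X : Type) [Fintype X] (c : Fam n X), σ * 3 ^ n ≤ Wt c →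
  (∀ j ≤ n, Win c j (M * psi (10 ^ 14) j)) →
  TC c k ≤ 1 / (k : ℝ) ^ 2 * (2 ^ n * (3 ^ (2 * n - (k + 1)) * Wt c))

/-- SP3 (short-medium). For `3 L ≤ 3^(2n)` the interval `[t, t + 3L)` is the disjoint union of three intervals of length `L`: `FI c (3L) w t = FI c L w t + FI c L w (t+L) + FI c L w (t+2L)`, so `|FI c (3L) w t - 3 FI c L w t| ≤ 2 |d t| + |d (t+L)|`, `d t = FI c L w t - FI c L w (t+L)`;
sum over `t`, `w`: at most `3 TC`; divide by `3L`, `L = 3^(2n-k-1)`. -/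
def SP3_stmt : Prop := ∀ (n : ℕ) (X : Type) [Fintype X] (c : Fam n X) (k : ℕ), k + 1 ≤ 2 * n →
  ∑ w : Word n, ∑ t, |FI c (3 ^ (2 * n - k)) w t / 3 ^ (2 * n - k)
      - FI c (3 ^ (2 * n - (k + 1))) w t / 3 ^ (2 * n - (k + 1))| ≤ TC c k / 3 ^ (2 * n - (k + 1))

/-- TEL (medium), from KST, SP3, TOT. `k₀` from KST, and `∑_(k ≥ k₀) 1/k² ≤ 1/(k₀ - 1) ≤ 1/2`. For `k₀ ≤ k < k₁`, `k + 61 clog k ≤ k₁ + 61 clog k₁ ≤ n`. Telescope: `∑_(w,t) |FI_(k₀)/L_(k₀) - FI_(k₁)/L_(k₁)| ≤ 2^n Wt/2`. On `G` (the set in the claim):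
`2^n Wt = ∑_(w, t ∈ G) FI_(k₁)/L_(k₁) ≤ 2^n Wt/2 + ∑_(w, t ∈ G) FI_(k₀)/L_(k₀) ≤ 2^n Wt/2 + |G| 2^n Wt/L_(k₀)` (`FI ≤ Wt`), `Wt > 0`. -/
def TEL_stmt : Prop := ∀ σ M : ℝ, 0 < σ → 0 < M → ∃ k₀ : ℕ, ∀ n k₁ : ℕ, k₀ ≤ k₁ → k₁ + 61 * Nat.clog 3 k₁ ≤ n →
  ∀ (X : Type) [Fintype X] (c : Fam n X), σ * 3 ^ n ≤ Wt c →
  (∀ j ≤ n, Win c j (M * psi (10 ^ 14) j)) → ∀ G : Finset (ZMod (3 ^ (2 * n))),
  (∀ t, (∃ (w : Word n) (z : X), (um c (0, w) z - t).val < 3 ^ (2 * n - k₁)) → t ∈ G) →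
  (3 : ℝ) ^ (2 * n - k₀) / 2 ≤ G.card

/-! ## Group C: contents and reduction -/

/-- FRO (medium): discrete Frostman lemma (max-flow min-cut on the triadic tree). Induction on `n` for all `ψ`, `E`. `n = 0`: `E ⊆ {0}`; `a 0 = ψ 0`, `A = {(0, 0)}` (or everything zero / empty). Step: `E_d = {q < 3^n | q + d 3^n ∈ E}`, `d < 3`, `ψ' i = ψ (i + 1)`: `a_d`, `A_d`;
`a q = a_(q / 3^n) (q % 3^n)`, `S = ∑_d ∑ a_d`. If `S ≤ ψ 0` take `a` and the union of the `(i + 1, d 3^i + c)`, `(i, c) ∈ A_d`. If `S > ψ 0` multiply `a` by `ψ 0/S` and take `A = {(0, 0)}`. -/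
def FRO_stmt : Prop := ∀ (n : ℕ) (ψ : ℕ → ℝ), (∀ i, 0 < ψ i) → ∀ E : Finset ℕ, (∀ q ∈ E, q < 3 ^ n) →
  ∃ (a : ℕ → ℝ) (A : Finset (ℕ × ℕ)), (∀ q, 0 ≤ a q) ∧ (∀ q, q ∉ E → a q = 0) ∧
    (∀ i ≤ n, ∀ c, ∑ q ∈ E with q / 3 ^ (n - i) = c, a q ≤ ψ i) ∧ (∀ s ∈ A, s.1 ≤ n) ∧
    (∀ q ∈ E, ∃ s ∈ A, q / 3 ^ (n - s.1) = s.2) ∧ ∑ s ∈ A, ψ s.1 ≤ ∑ q ∈ E, a q

/-- INC (medium): the increasing sets lemma for the triadic content. `(j, q)` is contained in `(j', q')` iff `j' ≤ j` and `q / 3^(j-j') = q'` (floor division); two cells with a common point are nested; every cell has finitely many ancestors, so every element of a family is in a maximal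
one. `s < ⊤`, `ε > 0`: covers `F_i` of `E_i` with cost `≤ s_i + ε 2^(-i-1)`, `s_i = cont ψ (E i) ≤ s`; `H_i` = the maximal elements of `F_0 ∪ .. ∪ F_i` (a cover of `E_i`). CLAIM: `cst H_i ≤ s_i + ε_i`, `ε_i = ε (1 - 2^(-i-1))`. Step: `A` = the elements of `H_i` which are not properly contained in an element of
`F_(i+1)`, `D` = the elements of `F_(i+1)` contained in an element of `A`. `(H_i \ A) ∪ D` covers `E_i` (if `y ∈ c ∈ A` and `y ∈ c' ∈ F_(i+1)` then `c' ⊆ c`), so `s_i ≤ cst (H_i \ A) + cst D`, hence `cst A ≤ cst D + ε_i` (finite costs), and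
`H_(i+1) ⊆ A ∪ (F_(i+1) \ D)`, so `cst H_(i+1) ≤ cst D + ε_i + cst (F_(i+1) \ D) = cst F_(i+1) + ε_i`. The maximal elements `H` of the union of all `F_i` cover `⋃ E_i`, every finite subset of `H` is contained in some `H_i`: `cst H ≤ s + ε`. (If you prefer: `ψ` with values in `ℝ` and sums.) -/
def INC_stmt : Prop := ∀ (ψ : ℕ → ℝ≥0∞) (F : ℕ → Set ℝ) (s : ℝ≥0∞), (∀ i, F i ⊆ F (i + 1)) →
  (∀ i, cont ψ (F i) ≤ s) → cont ψ (⋃ i, F i) ≤ s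

/-- GAU (medium): content zero implies measure zero. `mkMetric_apply`. Given `r > 0`, `ε > 0` let `J` be such that for `j ≥ J`: `lam 3^(-j) ≤ r` and `gz C (lam 3^(-j)) ≤ psE C₀ j` (`C (log (j log 3 - log lam))^3 ≥ C₀ (log j)^3`), and `ε' = min ε (min_(j<J) psi C₀ j)`. A cover `A` with cost `< ε'`
has only cells of level `≥ J`; the images `{lam (1 + s) | ⌊3^j s⌋ = q}` (diameter `lam 3^(-j)`), enumerated by `Encodable`, are a cover of the set with `∑ gz C (diam) ≤ cst A ≤ ε`. -/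
def GAU_stmt : Prop := ∀ (C₀ C lam : ℝ), 0 < C₀ → C₀ < C → 0 < lam → ∀ A : Set ℝ,
  cont (psE C₀) {s | lam * (1 + s) ∈ A} = 0 →
  MeasureTheory.Measure.mkMetric (gz C) A = 0

/-- DI1 (medium-long), from FRO: discretisation. For `x ∈ S` let `Q x` be the set of the `q < 3^n` such that some `s ∈ Es U lam δ x` has `⌊3^n s⌋ = q`; FRO (`ψ = psi C₀`): `a`, `A`; `A` (with second components in `ℤ`) covers `Es U lam δ x` (`⌊3^j s⌋ = ⌊3^n s⌋ / 3^(n-j)`), so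
`s₀ < cont ≤ cst A = ∑ ψ ≤ ∑ a`: normalise: total mass one, cells of level `i` of mass `≤ psi C₀ i/s₀`. `X` = the pairs `(x', q)` with `x' < 3^n` a cell `{x | ⌊3^n (x - o)/lam⌋ = x'}` which meets `S` (choose `x ∈ S` in it) and `q ∈ Q x`, `a q > 0` (a subtype of `Fin (3^n) × Fin (3^n)`); `ctr = x'`, `R = 3^n + q`.
`Wt` = the number of the cells which meet `S`, `≥ 3^n volume S/lam`. `Win`: the radii with `|R - r| ≤ 3^(n-j)` are in at most `3` cells of level `j` (`(R - 3^n)/3^(n-j)` takes at most three values). -/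
def DI1_stmt : Prop := ∀ (C₀ : ℝ), 0 < C₀ → ∀ (U S : Set ℝ) (o lam δ s₀ v : ℝ), 0 < lam → 0 < s₀ → 0 ≤ v →
  (∀ x ∈ S, o ≤ x ∧ x < o + lam) → ENNReal.ofReal v ≤ MeasureTheory.volume S →
  (∀ x ∈ S, ENNReal.ofReal s₀ < cont (psE C₀) (Es U lam δ x)) → ∀ n : ℕ,
  ∃ (X : Type) (_ : Fintype X) (c : Fam n X), v / lam * 3 ^ n ≤ Wt c ∧
    (∀ j ≤ n, Win c j (3 / s₀ * psi C₀ j)) ∧
    ∀ z : X, ∃ x ∈ S, ∃ s ∈ Es U lam δ x, |x - (o + lam * (c.ctr z / 3 ^ n))| ≤ lam / 3 ^ n ∧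
      |(1 + s) - (c.R z : ℝ) / 3 ^ n| ≤ 1 / 3 ^ n

/-- DI2 (medium): the cells are in `U`. For a word `w` there is `c' ∈ cantorSet` with `|c' - 1/2 - E w/3^n| ≤ 1/(2 * 3^n)` (the point with the digits of `w`; see the proof of `config_of_piece` in `Pool/Agent/helper97/Cant/RX.lean` and its lemmas). With `y = 3^n ctr z + R z E w` (an integer), the real number
`o + lam y/3^(2n)` is within `5/2 * lam/3^n` of `x + lam (1 + s)(c' - 1/2)`. If `(um c (0, w) z - t).val = d < 3^(2n-k₁)` the integer `T = y - d` is congruent to `t` and `[o + lam T/3^(2n), o + lam (T+1)/3^(2n)) ⊆ U` as `5/2 * lam/3^n + lam/3^k₁ + lam/3^(2n) < δ`. For different `t`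
these intervals are disjoint, of length `lam/3^(2n)`. -/
def DI2_stmt : Prop := ∀ (n k₁ : ℕ) (X : Type) [Fintype X] (c : Fam n X) (U : Set ℝ) (o lam δ : ℝ), 0 < lam →
  k₁ ≤ 2 * n → 4 * lam / 3 ^ n + lam / 3 ^ k₁ < δ →
  (∀ z : X, ∃ x : ℝ, ∃ s ∈ Es U lam δ x, |x - (o + lam * (c.ctr z / 3 ^ n))| ≤ lam / 3 ^ n ∧
      |(1 + s) - (c.R z : ℝ) / 3 ^ n| ≤ 1 / 3 ^ n) →
  ∃ G : Finset (ZMod (3 ^ (2 * n))),
    (∀ t, (∃ (w : Word n) (z : X), (um c (0, w) z - t).val < 3 ^ (2 * n - k₁)) → t ∈ G) ∧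
    ENNReal.ofReal (lam * G.card / 3 ^ (2 * n)) ≤ MeasureTheory.volume U

/-- FN1 (medium), from TEL, INC, DI1, DI2: one dyadic piece. Suppose `v = volume S > 0` (if it is `⊤`, it is not: `S ⊆ [o, o + lam)`). TEL with `σ = v/(2 lam)`, `M = 3/s₀`: `k₀`. `U ⊇ B` open with `volume U < lam/(4 * 3^k₀)` (outer regularity, `Set.exists_isOpen_lt_of_lt`). For `i : ℕ` let
`S_i = {x ∈ S | ENNReal.ofReal s₀ < cont (psE (10^14)) (Es U lam (1/(i+1)) x)}`. `Es U lam (1/(i+1)) x` increases with `i` and the union contains `{s | ..}` (compactness of `cantorSet`, `U` open), so by INC (contrapositive; `cont` is monotone) `S = ⋃ S_i` and `volume S_i ≥ v/2` for some `i` (`Monotone.measure_iUnion`,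
no measurability needed). DI1 for `S_i` (`δ = 1/(i+1)`, value `v/2`), `k₁ ≥ k₀` with `lam/3^k₁ < δ/2`, `n = k₁ + 61 clog k₁ + ..` with `4 lam/3^n < δ/2`; DI2, TEL: `lam/(2 * 3^k₀) ≤ volume U`, a contradiction. -/
def FN1_stmt : Prop := ∀ B : Set ℝ, MeasureTheory.volume B = 0 → ∀ (o lam s₀ : ℝ), 0 < lam → 0 < s₀ → ∀ S : Set ℝ,
  (∀ x ∈ S, o ≤ x ∧ x < o + lam) →
  (∀ x ∈ S, ENNReal.ofReal s₀ < cont (psE (10 ^ 14))
    {s | 0 ≤ s ∧ s < 1 ∧ ∀ c ∈ cantorSet, x + lam * (1 + s) * (c - 1 / 2) ∈ B}) →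
  MeasureTheory.volume S = 0

/-- FIN (medium), from FN1, GAU. `C = 2 * 10^14`. Let `x` be outside of the countable union over `l m : ℤ`, `i : ℕ` of the null sets of FN1 (`lam = 2^l`, `o = m 2^l`, `s₀ = 1/(i+1)`, `S` = all `x ∈ [o, o + lam)` with the property). Then for every `l` the content of the set of `s` is zero
(`m = ⌊x/2^l⌋`), so by GAU (`A = {r | 2^l ≤ r < 2^(l+1), ..}`) the radii in `[2^l, 2^(l+1))` have measure zero; the `r > 0` are the union over `l` (`exists_mem_Ico_zpow`). -/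
def FIN_stmt : Prop := ∃ C : ℝ, 0 < C ∧ ∀ B : Set ℝ, MeasureTheory.volume B = 0 →
  ∀ᵐ x : ℝ, MeasureTheory.Measure.mkMetric (fun d : ℝ≥0∞ => ENNReal.ofReal
      (Real.exp (-(C * (Real.log (Real.log (1 / d.toReal))) ^ 3))))
    {r : ℝ | 0 < r ∧ ∀ c ∈ cantorSet, x + r * (c - 1 / 2) ∈ B} = 0

end

end Pool.Agent.ZR
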